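import Pool.Agent.Helper15K9.Twist

/-!
Helper15K9 (MP_0430e4_lc): kernels on the cube which are at most `1 + exp (-c n)`.
-/

set_option autoImplicit false
set_option linter.unusedSectionVars false

open MeasureTheory Filter Topology

namespace Pool.Agent.Helper15K9.Tw

open Pool.Agent.TH41.BL Pool.Agent.TH41.BL.EFIf Pool.Agent.Y570.KP

lemma star_mono {n d : ℕ} {K L K' L' : ℝ} (h : StarAt n d K L) (hK : K ≤ K') (hL : L ≤ L') :
    StarAt n d K' L' := by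
  intro l
  refine (h l).trans (add_le_add ?_ ?_)
  · exact mul_le_mul_of_nonneg_right hK (Finset.sum_nonneg fun w _ =>
      mul_nonneg (Nat.cast_nonneg _) (le_max_right _ _))
  · exact mul_le_mul_of_nonneg_right hL (Finset.sum_nonneg fun w _ =>
      mul_nonneg (Nat.cast_nonneg _) (abs_nonneg _))

/-- the arithmetic of the twist -/
lemma star_exp (hc : S7_chr) (hk : S_kra) (n d : ℕ) (p : ℕ → Prop) [DecidablePred p]
    (mu κ δ₀ δ η : ℝ) (hκ : 0 < κ) (hη : 0 < η) (hηκ : η ≤ κ * (δ₀ - δ))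
    (hd : (d : ℝ) ≤ δ * n)
    (hp : ∀ w, w < d → p w) (hp' : ∀ w ∈ Finset.range (n + 1), ¬ p w → δ₀ * n ≤ (w : ℝ))
    (hnear : ∀ f : ℕ → ℝ, ∑ w ∈ (Finset.range (n + 1)).filter p, (n.choose w : ℝ) * |f w| ≤
      Real.exp (η * n) * ∑ w ∈ (Finset.range (n + 1)).filter (fun w => ¬ p w),
        (n.choose w : ℝ) * |f w| + Real.exp (n * (mu + η)) * NN n f) :
    StarAt n d (1 + Real.exp (-((κ * (δ₀ - δ) - η) * n)))
      (Real.exp (n * (mu + 1 / 2 * Real.log 2 + (κ * δ + η)))) := by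
  have hn0 : (0 : ℝ) ≤ n := Nat.cast_nonneg n
  have hr : ∀ w : ℕ, Real.exp (-κ) ^ w = Real.exp (-(κ * w)) := by
    intro w
    rw [← Real.exp_nat_mul]
    congr 1
    ring
  have h1 := star_of_near hc hk n d p (Real.exp (-κ)) (Real.exp (η * n))
    (Real.exp (n * (mu + η))) (Real.exp (-((κ * (δ₀ - δ) - η) * n))) (Real.exp_pos _)
    (by rw [Real.exp_le_one_iff]; linarith) (Real.exp_pos _).le (Real.exp_pos _).le
    (Real.exp_pos _).le (by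
      rw [Real.exp_le_one_iff, neg_nonpos]
      exact mul_nonneg (by linarith) hn0) hp (fun w hw hpw => by
      have h2 := hp' w hw hpw
      rw [hr, hr, ← Real.exp_add, ← Real.exp_add]
      refine Real.exp_le_exp.2 ?_
      nlinarith [mul_le_mul_of_nonneg_left h2 hκ.le, mul_le_mul_of_nonneg_left hd hκ.le]) hnear
  refine star_mono h1 le_rfl ?_
  have hs2e : (√2 : ℝ) ^ n = Real.exp (n * (1 / 2 * Real.log 2)) := by
    have e1 : (√2 : ℝ) = Real.exp (1 / 2 * Real.log 2) := by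
      rw [Real.sqrt_eq_rpow, Real.rpow_def_of_pos (by norm_num)]
      congr 1
      ring
    rw [e1, ← Real.exp_nat_mul]
  rw [hr, ← Real.exp_neg, neg_neg, hs2e, ← Real.exp_add, ← Real.exp_add]
  refine Real.exp_le_exp.2 ?_
  nlinarith [mul_le_mul_of_nonneg_left hd hκ.le]

theorem star3x (hc : S7_chr) (m δ₀ δ κ η : ℝ) (hm : 0 < m) (hδ : δ < δ₀) (hδ₀ : δ₀ < NR m 0)
    (hκ : 0 < κ) (hη : 0 < η) (hηκ : η ≤ κ * (δ₀ - δ)) :
    ∃ n₀ : ℕ, ∀ n : ℕ, n₀ ≤ n → Qz m n → ∀ d : ℕ, (d : ℝ) ≤ δ * n →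
      StarAt n d (1 + Real.exp (-((κ * (δ₀ - δ) - η) * n)))
        (Real.exp (n * (mu3 m + 1 / 2 * Real.log 2 + (κ * δ + η)))) := by
  obtain ⟨n₀, hn₀⟩ := k3_near m (NR m 0 - δ₀) η η hm (by linarith) hη hη
  refine ⟨n₀ + 1, fun n hn hQ d hd => ?_⟩
  have hn1 : (0 : ℝ) < n := by
    have : 0 < n := by omega
    exact_mod_cast this
  have e1 : NR m 0 - (NR m 0 - δ₀) = δ₀ := by ring
  have h1 := hn₀ n (by omega) hQ
  rw [e1] at h1
  refine star_exp hc KRAf.kra n d (fun w : ℕ => (w : ℝ) < δ₀ * n) (mu3 m) κ δ₀ δ η hκ hη hηκ hd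
    ?_ ?_ ?_
  · intro w hw
    have h2 : (w : ℝ) < d := by exact_mod_cast hw
    have h3 : δ * n < δ₀ * n := mul_lt_mul_of_pos_right hδ hn1
    show (w : ℝ) < δ₀ * n
    linarith
  · intro w _ hw
    exact not_lt.1 hw
  · intro f
    have h2 := h1 f
    have e2 : (Finset.range (n + 1)).filter (fun w : ℕ => ¬ (w : ℝ) < δ₀ * n) =
        (Finset.range (n + 1)).filter (fun w : ℕ => δ₀ * n ≤ (w : ℝ)) := by
      ext w
      simp only [Finset.mem_filter, not_lt]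
    rw [e2]
    exact h2

theorem star4x (hc : S7_chr) (m δ₀ δ κ η : ℝ) (q : ℕ) (hm : 0 < m) (hδ : δ < δ₀)
    (hδ₀ : δ₀ < 1 / 2 - 1 / 2 * THR 0 m) (hκ : 0 < κ) (hη : 0 < η) (hηκ : η ≤ κ * (δ₀ - δ))
    (hq : 0 < q) (hpq : ∃ p : ℤ, Nbar m * q = p) :
    ∃ r : ℕ, 0 < r ∧ ∃ n₀ : ℕ, ∀ n : ℕ, n₀ ≤ n → q * r ∣ n → ∀ d : ℕ, (d : ℝ) ≤ δ * n →
      StarAt n d (1 + Real.exp (-((κ * (δ₀ - δ) - η) * n)))
        (Real.exp (n * (mu4 m + 1 / 2 * Real.log 2 + (κ * δ + η)))) := by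
  obtain ⟨r, hr, n₀, hn₀⟩ := k4_near m q hm hq hpq (1 - THR 0 m - 2 * δ₀) η η (by linarith) hη hη
  refine ⟨r, hr.pos, n₀ + 1, fun n hn hQ d hd => ?_⟩
  have hn1 : (0 : ℝ) < n := by
    have : 0 < n := by omega
    exact_mod_cast this
  have h1 := hn₀ n (by omega) hQ
  refine star_exp hc KRAf.kra n d
    (fun w : ℕ => 1 - THR 0 m - 2 * δ₀ ≤ 1 - 2 * (w : ℝ) / n - THR 0 m) (mu4 m) κ δ₀ δ η hκ hη
    hηκ hd ?_ ?_ ?_
  · intro w hw
    have h2 : (w : ℝ) < d := by exact_mod_cast hw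
    have h3 : δ * n < δ₀ * n := mul_lt_mul_of_pos_right hδ hn1
    show 1 - THR 0 m - 2 * δ₀ ≤ 1 - 2 * (w : ℝ) / n - THR 0 m
    have h4 : 2 * (w : ℝ) / n ≤ 2 * δ₀ := by
      rw [div_le_iff₀ hn1]
      linarith
    linarith
  · intro w _ hw
    rw [not_le] at hw
    have h4 : 2 * δ₀ < 2 * (w : ℝ) / n := by linarith
    rw [lt_div_iff₀ hn1] at h4
    linarith
  · intro f
    have h2 := h1 f
    have e2 : (Finset.range (n + 1)).filter
        (fun w : ℕ => ¬ (1 - THR 0 m - 2 * δ₀ ≤ 1 - 2 * (w : ℝ) / n - THR 0 m)) =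
        (Finset.range (n + 1)).filter
        (fun w : ℕ => 1 - 2 * (w : ℝ) / n - THR 0 m < 1 - THR 0 m - 2 * δ₀) := by
      ext w
      simp only [Finset.mem_filter, not_le]
    rw [e2]
    exact h2

/-- the transfer from lengths in a set with bounded gaps -/
lemma tr_of (hc : S7_chr) {δ δ' a b a' b' : ℝ} (hδ : 0 ≤ δ) (hδδ : δ < δ') (ha : a < a')
    (hb : b' < b) (N0 g : ℕ) (Sn : ℕ → Prop)
    (hgap : ∀ n : ℕ, N0 + g ≤ n → ∃ n' r : ℕ, n = n' + r ∧ r ≤ g ∧ Sn n')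
    (hS : ∀ n : ℕ, N0 ≤ n → Sn n → ∀ d : ℕ, (d : ℝ) ≤ δ' * n →
      StarAt n d (1 + Real.exp (-(a' * n))) (Real.exp (n * b'))) :
    ∃ n₀ : ℕ, ∀ n : ℕ, n₀ ≤ n → ∀ d : ℕ, 1 ≤ d →
    (d : ℝ) ≤ δ * n → ∃ G : (Fin n → Bool) → (Fin n → Bool) → ℝ,
    Good G (1 + Real.exp (-(a * n))) (Real.exp (n * b)) ∧
      ∀ u v, hammingDist u v < d → G u v = 0 := by
  have hlog : 0 < Real.log 2 := Real.log_pos (by norm_num)
  obtain ⟨N1, hN1⟩ := exists_nat_ge (δ * g / (δ' - δ))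
  obtain ⟨N2, hN2⟩ := exists_nat_ge (|a| * g / (a' - a))
  obtain ⟨N3, hN3⟩ := exists_nat_ge (g * (Real.log 2 + |b|) / (b - b'))
  refine ⟨N0 + g + (N1 + N2 + N3), ?_⟩
  intro n hn d hd1 hd
  obtain ⟨n', r, hnr, hr, hSn⟩ := hgap n (by omega)
  subst hnr
  have hn'0 : N0 ≤ n' := by omega
  have hr' : (r : ℝ) ≤ g := by exact_mod_cast hr
  have hr0 : (0 : ℝ) ≤ r := Nat.cast_nonneg r
  have hg0 : (0 : ℝ) ≤ g := Nat.cast_nonneg g
  have hn'p : (0 : ℝ) ≤ n' := Nat.cast_nonneg n'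
  have hc1 : ((n' + r : ℕ) : ℝ) = n' + r := by push_cast; ring
  have h1 : δ * g ≤ (δ' - δ) * n' := by
    have h2 : (N1 : ℝ) ≤ n' := by exact_mod_cast (by omega : N1 ≤ n')
    have h3 := hN1.trans h2
    rw [div_le_iff₀ (by linarith)] at h3
    linarith
  have h2 : |a| * g ≤ (a' - a) * n' := by
    have h2 : (N2 : ℝ) ≤ n' := by exact_mod_cast (by omega : N2 ≤ n')
    have h3 := hN2.trans h2
    rw [div_le_iff₀ (by linarith)] at h3
    linarith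
  have h3 : g * (Real.log 2 + |b|) ≤ (b - b') * n' := by
    have h2 : (N3 : ℝ) ≤ n' := by exact_mod_cast (by omega : N3 ≤ n')
    have h3 := hN3.trans h2
    rw [div_le_iff₀ (by linarith)] at h3
    linarith
  have hdn : (d : ℝ) ≤ δ' * n' := by
    have h4 : δ * r ≤ δ * g := mul_le_mul_of_nonneg_left hr' hδ
    rw [hc1] at hd
    nlinarith
  have hst := hS n' hn'0 hSn d hdn
  obtain ⟨G, hG, hGd⟩ := good_of_star hc n' d _ _ (by positivity) (Real.exp_pos _).le hd1 hst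
  obtain ⟨G', hG', hGd'⟩ := good_extend n' r d _ _ (Real.exp_pos _).le G hG hGd
  refine ⟨G', hG'.mono ?_ ?_, hGd'⟩
  · have h4 : Real.exp (-(a' * n')) ≤ Real.exp (-(a * ((n' + r : ℕ) : ℝ))) := by
      refine Real.exp_le_exp.2 (neg_le_neg ?_)
      rw [hc1]
      have h5 : a * r ≤ |a| * g :=
        (mul_le_mul_of_nonneg_right (le_abs_self a) hr0).trans
          (mul_le_mul_of_nonneg_left hr' (abs_nonneg a))
      nlinarith
    linarith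
  · have e1 : (2 : ℝ) ^ r = Real.exp (r * Real.log 2) := by
      rw [Real.exp_nat_mul, Real.exp_log two_pos]
    rw [e1, ← Real.exp_add]
    refine Real.exp_le_exp.2 ?_
    rw [hc1]
    have h4 : (r : ℝ) * Real.log 2 ≤ g * Real.log 2 := mul_le_mul_of_nonneg_right hr' hlog.le
    have h5 : -(r * b) ≤ g * |b| := by
      have h6 := neg_abs_le b
      have h7 := abs_nonneg b
      nlinarith [mul_le_mul_of_nonneg_right hr' h7, mul_le_mul_of_nonneg_left h6 hr0]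
    nlinarith

/-- kernels with exponent `x` at `δ₀`, twisted -/
def Nd (δ₀ x : ℝ) : Prop := ∀ κ : ℝ, 0 < κ → ∀ δ : ℝ, 0 ≤ δ → δ < δ₀ → ∀ ε : ℝ, 0 < ε →
  ε ≤ κ * (δ₀ - δ) → ∃ n₀ : ℕ, ∀ n : ℕ, n₀ ≤ n → ∀ d : ℕ, 1 ≤ d →
  (d : ℝ) ≤ δ * n → ∃ G : (Fin n → Bool) → (Fin n → Bool) → ℝ,
    Good G (1 + Real.exp (-((κ * (δ₀ - δ) - ε) * n)))
      (Real.exp (n * (Real.log 2 - x + κ * δ + ε))) ∧
      ∀ u v, hammingDist u v < d → G u v = 0

/-- the choice of the larger distance -/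
lemma choose_d {κ δ δ₀ ε : ℝ} (hκ : 0 < κ) (hδ : δ < δ₀) (hε : 0 < ε)
    (hεκ : ε ≤ κ * (δ₀ - δ)) :
    ∃ δ' : ℝ, δ < δ' ∧ δ' < δ₀ ∧ κ * δ' ≤ κ * δ + ε / 4 ∧ ε / 4 ≤ κ * (δ₀ - δ') := by
  refine ⟨δ + ε / (4 * κ), ?_, ?_, ?_, ?_⟩
  · have : 0 < ε / (4 * κ) := by positivity
    linarith
  · have h1 : ε / (4 * κ) ≤ (δ₀ - δ) / 4 := by
      rw [div_le_div_iff₀ (by positivity) (by norm_num)]
      nlinarith
    linarith
  · have h1 : κ * (ε / (4 * κ)) = ε / 4 := by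
      field_simp
    rw [mul_add, h1]
  · have h1 : κ * (ε / (4 * κ)) = ε / 4 := by
      field_simp
    have h2 : κ * (δ₀ - (δ + ε / (4 * κ))) = κ * (δ₀ - δ) - κ * (ε / (4 * κ)) := by ring
    rw [h2, h1]
    linarith

theorem nd3 (hc : S7_chr) {m δ₀ : ℝ} (hm0 : 0 < m) (hδ₀ : δ₀ < NR m 0) :
    Nd δ₀ (Real.log 2 - I3 m) := by
  intro κ hκ δ hδ0 hδ ε hε hεκ
  have hq := k3_quant
  have hcont : ContinuousAt (fun y => NR y 0) m :=
    (hq.2.2.1 0).continuousAt (Ioi_mem_nhds hm0)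
  have hev : ∀ᶠ y in 𝓝 m, δ₀ < NR y 0 := hcont.eventually_const_lt hδ₀
  obtain ⟨η, hη, hball⟩ := Metric.eventually_nhds_iff.1 hev
  obtain ⟨m', hm'0, hm'm, hm'η, q, hq0, hQ⟩ := FI3f.quant hq m η hm0 hη
  have hNR : δ₀ < NR m' 0 := hball (by
    rw [Real.dist_eq, abs_sub_comm, abs_of_nonneg (by linarith)]
    exact hm'η)
  have hI : I3 m' ≤ I3 m := hq.2.2.2 hm'0 hm0 hm'm
  obtain ⟨δ', hδ1, hδ2, hδ3, hδ4⟩ := choose_d hκ hδ hε hεκ
  obtain ⟨N0, hN0⟩ := star3x hc m' δ₀ δ' κ (ε / 4) hm'0 hδ2 hNR hκ (by linarith) hδ4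
  refine tr_of hc hδ0 hδ1 (a' := κ * (δ₀ - δ') - ε / 4)
    (b' := mu3 m' + 1 / 2 * Real.log 2 + (κ * δ' + ε / 4)) ?_ ?_ N0 q (fun n => Qz m' n) ?_ hN0
  · have : κ * (δ₀ - δ') = κ * δ₀ - κ * δ' := by ring
    have h2 : κ * (δ₀ - δ) = κ * δ₀ - κ * δ := by ring
    rw [this, h2]
    linarith
  · unfold mu3
    linarith
  · intro n hn
    have hdm := Nat.div_add_mod n q
    have hmod := Nat.mod_lt n hq0
    exact ⟨q * (n / q), n % q, hdm.symm, hmod.le, hQ _⟩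

theorem nd4 (hc : S7_chr) {m δ₀ : ℝ} (hm0 : 0 < m) (hδ₀ : δ₀ < 1 / 2 - 1 / 2 * THR 0 m) :
    Nd δ₀ (1 / 2 * Real.log 2 - mu4 m) := by
  intro κ hκ δ hδ0 hδ ε hε hεκ
  have ht := k4_thr
  have hmu := k4_mu
  have hcont : ContinuousAt (fun y => 1 / 2 - 1 / 2 * THR 0 y) m :=
    ContinuousAt.sub continuousAt_const
      (ContinuousAt.mul continuousAt_const (ht.2.2.2.2.continuousAt (Ioi_mem_nhds hm0)))
  have hev : ∀ᶠ y in 𝓝 m, δ₀ < 1 / 2 - 1 / 2 * THR 0 y := hcont.eventually_const_lt hδ₀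
  obtain ⟨η, hη, hball⟩ := Metric.eventually_nhds_iff.1 hev
  obtain ⟨m', hm'0, hm'm, hm'η, q, hq0, p, hp, hQ⟩ := FI4f.quant4 k3_quant m η hm0 hη
  have hNR : δ₀ < 1 / 2 - 1 / 2 * THR 0 m' := hball (by
    rw [Real.dist_eq, abs_of_nonneg (by linarith)]
    exact hm'η)
  have hI : mu4 m' ≤ mu4 m := hmu.1 hm0 hm'0 hm'm
  obtain ⟨δ', hδ1, hδ2, hδ3, hδ4⟩ := choose_d hκ hδ hε hεκ
  obtain ⟨r, hr, N0, hN0⟩ := star4x hc m' δ₀ δ' κ (ε / 4) q hm'0 hδ2 hNR hκ (by linarith) hδ4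
    hq0 ⟨p, hQ⟩
  refine tr_of hc hδ0 hδ1 (a' := κ * (δ₀ - δ') - ε / 4)
    (b' := mu4 m' + 1 / 2 * Real.log 2 + (κ * δ' + ε / 4)) ?_ ?_ N0 (q * r)
    (fun n => q * r ∣ n) ?_ hN0
  · have : κ * (δ₀ - δ') = κ * δ₀ - κ * δ' := by ring
    have h2 : κ * (δ₀ - δ) = κ * δ₀ - κ * δ := by ring
    rw [this, h2]
    linarith
  · linarith
  · intro n hn
    have hqr : 0 < q * r := Nat.mul_pos hq0 hr
    have hdm := Nat.div_add_mod n (q * r)
    have hmod := Nat.mod_lt n hqr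
    exact ⟨q * r * (n / (q * r)), n % (q * r), hdm.symm, hmod.le, Dvd.intro _ rfl⟩

/-- kernels slightly to the right of `δ`, with exponent almost `x` -/
def Nx (δ x : ℝ) : Prop := ∀ ε : ℝ, 0 < ε → ∃ δ' x' : ℝ, δ < δ' ∧ x - ε ≤ x' ∧ Nd δ' x'

/-- the first branch -/
theorem nx_one (hc : S7_chr) {e : ℝ} (he : 0 < e) :
    Nx ((1 - A2s e / As e) / 2) ((1 - Ss e) * Real.log 2) := by
  obtain ⟨k, hk0, hk1, h1, -, h3⟩ := k6_fi e he
  have hlog : 0 < Real.log 2 := Real.log_pos (by norm_num)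
  have e1 : (1 - A2s e / As e) / 2 = 1 / 2 - Ec k / Real.pi := by
    rw [h1]; ring
  have e2 : (1 - Ss e) * Real.log 2 = Real.log 2 - Ic k := by
    rw [h3, sub_mul, div_mul_cancel₀ _ hlog.ne', one_mul]
  rw [e1, e2]
  intro ε hε
  have hcont : ContinuousAt Ic k := (Ic_cont k4_mu k4_val k5_c).continuousAt (Ioo_mem_nhds hk0 hk1)
  have e1 : ∀ᶠ x in 𝓝 k, Ic x < Ic k + ε :=
    hcont.eventually_lt continuousAt_const (by linarith)
  have e2 : ∀ᶠ x in 𝓝 k, x < 1 := eventually_lt_nhds hk1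
  have e3 := (e1.and e2).filter_mono (nhdsWithin_le_nhds (s := Set.Ioi k))
  have e4 : ∀ᶠ x in 𝓝[>] k, k < x := eventually_mem_nhdsWithin
  obtain ⟨x, ⟨hx1, hx2⟩, hx3⟩ := (e3.and e4).exists
  have hx0 : 0 < x := hk0.trans hx3
  have hE : Ec x < Ec k := Ec_anti k3_w k5_wn k5_kd ⟨hk0, hk1⟩ ⟨hx0, hx2⟩ hx3
  have hpi := Real.pi_pos
  have h5 : 1 / 2 - Ec k / Real.pi < NR (mk x) 0 := by
    unfold EFIf.mk
    rw [k5_a x hx0 hx2]
    have : Ec x / Real.pi < Ec k / Real.pi := div_lt_div_of_pos_right hE hpi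
    linarith
  obtain ⟨δ', h6, h7⟩ := exists_between h5
  refine ⟨δ', Real.log 2 - I3 (mk x), h6, ?_, nd3 hc (mk_pos hx0 hx2) h7⟩
  have h9 := k5_c x hx0 hx2
  unfold EFIf.mk
  rw [h9]
  linarith

/-- the second branch -/
theorem nx_two (hc : S7_chr) {e : ℝ} (he : 0 < e) :
    Nx ((1 - B2s e / Bs e) / 2) (Ss e * Real.log 2) := by
  obtain ⟨k, hk0, hk1, -, h2, h3⟩ := k6_fi e he
  have hlog : 0 < Real.log 2 := Real.log_pos (by norm_num)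
  have hpi := Real.pi_pos
  have e1 : (1 - B2s e / Bs e) / 2 = 1 / 2 - (Ec k - (1 - k ^ 2) * Kc k) / (Real.pi * k) := by
    rw [h2]
    field_simp
  have e2 : Ss e * Real.log 2 = Ic k := by
    rw [h3, div_mul_cancel₀ _ hlog.ne']
  rw [e1, e2]
  intro ε hε
  have hcont : ContinuousAt Ic k := (Ic_cont k4_mu k4_val k5_c).continuousAt (Ioo_mem_nhds hk0 hk1)
  have e1 : ∀ᶠ x in 𝓝 k, Ic k - ε < Ic x :=
    continuousAt_const.eventually_lt hcont (by linarith)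
  have e2 : ∀ᶠ x in 𝓝 k, 0 < x := eventually_gt_nhds hk0
  have e3 := (e1.and e2).filter_mono (nhdsWithin_le_nhds (s := Set.Iio k))
  have e4 : ∀ᶠ x in 𝓝[<] k, x < k := eventually_mem_nhdsWithin
  obtain ⟨x, ⟨hx1, hx2⟩, hx3⟩ := (e3.and e4).exists
  have hx0 : x < 1 := lt_trans hx3 hk1
  have hD : Dk x < Dk k := Dk_mono k3_w k5_wn k5_kd ⟨hx2, hx0⟩ ⟨hk0, hk1⟩ hx3
  have eD : ∀ y : ℝ, (Ec y - (1 - y ^ 2) * Kc y) / (Real.pi * y) = Dk y / Real.pi := by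
    intro y
    unfold Dk
    rw [div_div, mul_comm Real.pi y]
  have h5 : 1 / 2 - (Ec k - (1 - k ^ 2) * Kc k) / (Real.pi * k) <
      1 / 2 - 1 / 2 * THR 0 (mk x) := by
    unfold EFIf.mk
    rw [k5_b x hx2 hx0, eD, eD]
    have : Dk x / Real.pi < Dk k / Real.pi := div_lt_div_of_pos_right hD hpi
    linarith
  obtain ⟨δ', h6, h7⟩ := exists_between h5
  refine ⟨δ', 1 / 2 * Real.log 2 - mu4 (mk x), h6, ?_, nd4 hc (mk_pos hx2 hx0) h7⟩
  have h9 := k5_c x hx2 hx0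
  have h10 := k4_val (mk x) (mk_pos hx2 hx0)
  have h11 : I3 (mk x) = Ic x := h9
  rw [h10, h11]
  linarith

/-- the middle point -/
theorem nx_mid (hc : S7_chr) : Nx (1 / 2 - 1 / Real.pi) (1 / 2 * Real.log 2) := by
  intro ε hε
  have hpi := Real.pi_pos
  obtain ⟨m, hm⟩ : ∃ m : ℝ, m = (Real.pi / 4 / ε) ^ 2 := ⟨_, rfl⟩
  have hm0 : 0 < m := by rw [hm]; positivity
  have hsm : √m = Real.pi / 4 / ε := by
    rw [hm, Real.sqrt_sq (by positivity)]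
  have h1 := mu4_le hm0
  have h2 : Real.pi / 4 * (1 / √m) = ε := by
    rw [hsm]
    field_simp
  rw [h2] at h1
  have h3 := THR_lt hm0
  have h4 : 1 / 2 - 1 / Real.pi < 1 / 2 - 1 / 2 * THR 0 m := by
    have : 1 / 2 * (2 / Real.pi) = 1 / Real.pi := by ring
    linarith
  obtain ⟨δ', h6, h7⟩ := exists_between h4
  exact ⟨δ', 1 / 2 * Real.log 2 - mu4 m, h6, by linarith, nd4 hc hm0 h7⟩

end Pool.Agent.Helper15K9.Tw
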