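import Pool.Agent.Helper15K9.Lev

/-!
Helper15K9 (MP_0430e4_lc): the hierarchy of Lovász and Schrijver.
-/

set_option autoImplicit false
set_option linter.unusedSectionVars false

namespace Pool.Agent.Helper15K9.Ls

open Finset Pool.Agent.TH41.BL Pool.Agent.Y570.KP

variable {n d k : ℕ}

/-- the fractional solutions, and the operator `N₊` -/
def LS (n d : ℕ) : ℕ → ((Fin n → Bool) → ℝ) → Prop
  | 0, x => (∀ u, 0 ≤ x u ∧ x u ≤ 1) ∧ ∀ u v, u ≠ v → hammingDist u v < d → x u + x v ≤ 1
  | r + 1, x => ∃ Y : (Fin n → Bool) → (Fin n → Bool) → ℝ,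
      (∀ u v, Y u v = Y v u) ∧ (∀ u, Y u u = x u) ∧
      (∀ (c : ℝ) (a : (Fin n → Bool) → ℝ),
        0 ≤ c ^ 2 + 2 * c * ∑ u, a u * x u + ∑ u, ∑ v, a u * a v * Y u v) ∧
      ∀ v, (∃ z, LS n d r z ∧ ∀ u, Y u v = x v * z u) ∧
        ∃ z, LS n d r z ∧ ∀ u, x u - Y u v = (1 - x v) * z u

/-- the optimum -/
noncomputable def LB (n d r : ℕ) : ℝ := sSup {v : ℝ | ∃ x, LS n d r x ∧ v = ∑ u, x u}

lemma unit_of_psd {x : (Fin n → Bool) → ℝ} {Y : (Fin n → Bool) → (Fin n → Bool) → ℝ}
    (hd : ∀ u, Y u u = x u)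
    (hp : ∀ (c : ℝ) (a : (Fin n → Bool) → ℝ),
        0 ≤ c ^ 2 + 2 * c * ∑ u, a u * x u + ∑ u, ∑ v, a u * a v * Y u v)
    (v : Fin n → Bool) : 0 ≤ x v ∧ x v ≤ 1 := by
  have key : ∀ c t : ℝ, 0 ≤ c ^ 2 + 2 * c * (t * x v) + t * t * x v := by
    intro c t
    have h1 := hp c (fun u => if u = v then t else 0)
    have e1 : ∑ u, (if u = v then t else 0) * x u = t * x v := by simp
    have e2 : ∑ u, ∑ w, (if u = v then t else 0) * (if w = v then t else 0) * Y u w =
        t * t * Y v v := by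
      rw [Finset.sum_eq_single v]
      · rw [Finset.sum_eq_single v]
        · simp
        · intro w _ hw
          simp [hw]
        · simp
      · intro u _ hu
        simp [hu]
      · simp
    rw [e1, e2, hd] at h1
    exact h1
  have h1 := key 0 1
  have h2 := key (x v) (-1)
  have hx0 : 0 ≤ x v := by linarith
  refine ⟨hx0, ?_⟩
  have h3 : 0 ≤ x v * (1 - x v) := by linarith
  by_contra hcon
  push Not at hcon
  nlinarith

/-- the solutions satisfy the constraints of the level zero -/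
lemma LS.frac {r : ℕ} : ∀ {x : (Fin n → Bool) → ℝ}, LS n d r x →
    (∀ u, 0 ≤ x u ∧ x u ≤ 1) ∧ ∀ u v, u ≠ v → hammingDist u v < d → x u + x v ≤ 1 := by
  induction r with
  | zero => intro x h; exact h
  | succ r ih =>
    intro x h
    obtain ⟨Y, hs, hdg, hp, hc⟩ := h
    have hu := unit_of_psd hdg hp
    refine ⟨hu, fun u v huv hlt => ?_⟩
    obtain ⟨⟨z, hz, hz'⟩, z2, hz2, hz2'⟩ := hc v
    have a1 := (ih hz).2 u v huv hlt
    have a2 := (ih hz2).2 u v huv hlt
    have e1 : x u = x v * z u + (1 - x v) * z2 u := by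
      rw [← hz' u, ← hz2' u]
      ring
    have e2 : x v = x v * z v + (1 - x v) * z2 v := by
      rw [← hz' v, ← hz2' v]
      ring
    have b1 := mul_le_mul_of_nonneg_left a1 (hu v).1
    have b2 := mul_le_mul_of_nonneg_left a2 (sub_nonneg.2 (hu v).2)
    have e3 : x u + x v = (x v * z u + (1 - x v) * z2 u) + (x v * z v + (1 - x v) * z2 v) := by
      rw [← e1, ← e2]
    rw [e3]
    linarith

lemma bdd_LB (n d r : ℕ) : BddAbove {v : ℝ | ∃ x, LS n d r x ∧ v = ∑ u, x u} := by
  refine ⟨∑ _u : Fin n → Bool, 1, ?_⟩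
  rintro v ⟨x, hx, rfl⟩
  exact Finset.sum_le_sum fun u _ => (hx.frac.1 u).2

lemma cond_ins (y : Finset (Fin n → Bool) → ℝ) (D E S : Finset (Fin n → Bool))
    (v : Fin n → Bool) :
    Pool.Agent.Y570.KP.cond y D (insert v E) S = Pool.Agent.Y570.KP.cond y D E S -
      Pool.Agent.Y570.KP.cond y D E (S ∪ {v}) := by
  by_cases hv : v ∈ E
  · rw [Finset.insert_eq_of_mem hv, cond_zero (S := S ∪ {v}) y hv (by simp), sub_zero]
  · unfold Pool.Agent.Y570.KP.cond
    rw [Finset.sum_powerset_insert hv, sub_eq_add_neg, ← Finset.sum_neg_distrib]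
    congr 1
    refine Finset.sum_congr rfl fun F hF => ?_
    have hF' : v ∉ F := fun h => hv (Finset.mem_powerset.1 hF h)
    rw [Finset.card_insert_of_notMem hF', pow_succ]
    have h1 : D ∪ insert v F ∪ S = D ∪ F ∪ (S ∪ {v}) := by
      ext z
      simp only [Finset.mem_union, Finset.mem_insert, Finset.mem_singleton]
      tauto
    rw [h1]
    ring

lemma cond_mem (y : Finset (Fin n → Bool) → ℝ) (D E S : Finset (Fin n → Bool))
    (v : Fin n → Bool) :
    Pool.Agent.Y570.KP.cond y D E (S ∪ {v}) = Pool.Agent.Y570.KP.cond y (insert v D) E S := by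
  unfold Pool.Agent.Y570.KP.cond
  refine Finset.sum_congr rfl fun F _ => ?_
  have h1 : D ∪ F ∪ (S ∪ {v}) = insert v D ∪ F ∪ S := by
    ext z
    simp only [Finset.mem_union, Finset.mem_insert, Finset.mem_singleton]
    tauto
  rw [h1]

/-- conditioning on a word in the code -/
lemma pc_in {y : Finset (Fin n → Bool) → ℝ} (h : PC n d (k + 1) y) (v : Fin n → Bool)
    (h0 : 0 < y {v}) : PC n d k (fun S => y (S ∪ {v}) / y {v}) := by
  have hc : ∀ D E S, Pool.Agent.Y570.KP.cond (fun S => y (S ∪ {v}) / y {v}) D E S =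
      (y {v})⁻¹ * Pool.Agent.Y570.KP.cond y (insert v D) E S := by
    intro D E S
    rw [← cond_mem]
    unfold Pool.Agent.Y570.KP.cond
    rw [Finset.mul_sum]
    refine Finset.sum_congr rfl fun F _ => ?_
    beta_reduce
    rw [Finset.union_assoc (D ∪ F), div_eq_mul_inv]
    ring
  refine ⟨?_, ?_, ?_, ?_⟩
  · simp only [Finset.empty_union]
    exact div_self h0.ne'
  · intro S u hu w hw huw hlt
    rw [h.dist (S ∪ {v}) u (by simp [hu]) w (by simp [hw]) huw hlt, zero_div]
  · intro D E hDE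
    rw [hc]
    have := Finset.card_insert_le v D
    exact mul_nonneg (inv_nonneg.2 h0.le) (h.nonneg _ _ (by omega))
  · intro D E hDE a
    have := Finset.card_insert_le v D
    have h1 := h.psd (insert v D) E (by omega) a
    have e1 : ∑ s, ∑ t, a s * a t * Pool.Agent.Y570.KP.cond (fun S => y (S ∪ {v}) / y {v}) D E
        (s.toFinset ∪ t.toFinset) = (y {v})⁻¹ * ∑ s, ∑ t, a s * a t *
          Pool.Agent.Y570.KP.cond y (insert v D) E (s.toFinset ∪ t.toFinset) := by
      rw [Finset.mul_sum]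
      refine Finset.sum_congr rfl fun s _ => ?_
      rw [Finset.mul_sum]
      refine Finset.sum_congr rfl fun t _ => ?_
      rw [hc]
      ring
    rw [e1]
    exact mul_nonneg (inv_nonneg.2 h0.le) h1

/-- conditioning on a word outside the code -/
lemma pc_out {y : Finset (Fin n → Bool) → ℝ} (h : PC n d (k + 1) y) (v : Fin n → Bool)
    (h0 : 0 < 1 - y {v}) : PC n d k (fun S => (y S - y (S ∪ {v})) / (1 - y {v})) := by
  have hc : ∀ D E S, Pool.Agent.Y570.KP.cond (fun S => (y S - y (S ∪ {v})) / (1 - y {v})) D E S =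
      (1 - y {v})⁻¹ * Pool.Agent.Y570.KP.cond y D (insert v E) S := by
    intro D E S
    rw [cond_ins]
    unfold Pool.Agent.Y570.KP.cond
    rw [← Finset.sum_sub_distrib, Finset.mul_sum]
    refine Finset.sum_congr rfl fun F _ => ?_
    beta_reduce
    rw [Finset.union_assoc (D ∪ F), div_eq_mul_inv]
    ring
  refine ⟨?_, ?_, ?_, ?_⟩
  · simp only [Finset.empty_union, h.one]
    exact div_self h0.ne'
  · intro S u hu w hw huw hlt
    rw [h.dist (S ∪ {v}) u (by simp [hu]) w (by simp [hw]) huw hlt,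
      h.dist S u hu w hw huw hlt, sub_zero, zero_div]
  · intro D E hDE
    rw [hc]
    have := Finset.card_insert_le v E
    exact mul_nonneg (inv_nonneg.2 h0.le) (h.nonneg _ _ (by omega))
  · intro D E hDE a
    have := Finset.card_insert_le v E
    have h1 := h.psd D (insert v E) (by omega) a
    have e1 : ∑ s, ∑ t, a s * a t * Pool.Agent.Y570.KP.cond
        (fun S => (y S - y (S ∪ {v})) / (1 - y {v})) D E
        (s.toFinset ∪ t.toFinset) = (1 - y {v})⁻¹ * ∑ s, ∑ t, a s * a t *
          Pool.Agent.Y570.KP.cond y D (insert v E) (s.toFinset ∪ t.toFinset) := by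
      rw [Finset.mul_sum]
      refine Finset.sum_congr rfl fun s _ => ?_
      rw [Finset.mul_sum]
      refine Finset.sum_congr rfl fun t _ => ?_
      rw [hc]
      ring
    rw [e1]
    exact mul_nonneg (inv_nonneg.2 h0.le) h1

/-- a pair of different words -/
lemma pair_le {y : Finset (Fin n → Bool) → ℝ} (h : PC n d k y) (hk : 2 ≤ k)
    {u v : Fin n → Bool} (huv : u ≠ v) :
    0 ≤ y ({u} ∪ {v}) ∧ y ({u} ∪ {v}) ≤ y {v} ∧ y {u} + y {v} ≤ 1 + y ({u} ∪ {v}) := by
  have hps : ∀ w : Fin n → Bool, ({w} : Finset (Fin n → Bool)).powerset = {∅, {w}} := by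
    intro w
    ext F
    simp only [Finset.mem_powerset, Finset.mem_insert, Finset.mem_singleton]
    exact Finset.subset_singleton_iff
  have hcs : ∀ (D S : Finset (Fin n → Bool)) (w : Fin n → Bool),
      Pool.Agent.Y570.KP.cond y D {w} S = y (D ∪ S) - y (D ∪ S ∪ {w}) := by
    intro D S w
    have h1 := cond_ins y D ∅ S w
    rw [cond_empty, cond_empty] at h1
    have h2 : (insert w ∅ : Finset (Fin n → Bool)) = {w} := rfl
    rw [h2] at h1
    rw [h1, Finset.union_assoc]
  refine ⟨?_, ?_, ?_⟩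
  · have h1 := h.nonneg ({u} ∪ {v}) ∅ (by
      have := Finset.card_union_le ({u} : Finset (Fin n → Bool)) {v}
      simp only [Finset.card_singleton, Finset.card_empty] at this ⊢
      omega)
    rwa [cond_empty, Finset.union_empty] at h1
  · have h1 := h.nonneg {v} {u} (by simpa using hk)
    rw [hcs, Finset.union_empty, Finset.union_comm {v} {u}] at h1
    linarith
  · have h1 := h.nonneg ∅ {u, v} (by
      rw [Finset.card_pair huv]
      simpa using hk)
    have h2 : ({u, v} : Finset (Fin n → Bool)) = insert u {v} := rfl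
    rw [h2, cond_ins, hcs, hcs] at h1
    simp only [Finset.empty_union, h.one] at h1
    linarith

/-- the hierarchy of Lovász and Schrijver is weaker -/
theorem ls_of_pc {r : ℕ} : ∀ {k : ℕ} {y : Finset (Fin n → Bool) → ℝ}, PC n d k y → r + 2 ≤ k →
    LS n d r (fun u => y {u}) := by
  induction r with
  | zero =>
    intro k y h hk
    refine ⟨fun u => h.one_le (by omega) u, fun u v huv hlt => ?_⟩
    have h1 := (pair_le h (by omega) huv).2.2
    rw [h.dist ({u} ∪ {v}) u (by simp) v (by simp) huv hlt, add_zero] at h1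
    exact h1
  | succ r ih =>
    intro k y h hk
    obtain ⟨k', rfl⟩ : ∃ k', k = k' + 1 := ⟨k - 1, by omega⟩
    refine ⟨fun u v => y ({u} ∪ {v}), fun u v => ?_, fun u => ?_, fun c a => ?_, fun v => ⟨?_, ?_⟩⟩
    · simp only
      rw [Finset.union_comm]
    · simp only
      rw [Finset.union_self]
    · have h1 := h.psd ∅ ∅ (by simp only [Finset.card_empty]; omega) (fun s => s.elim c a)
      simp only [cond_empty, Finset.empty_union, Fintype.sum_option, Option.toFinset_none,
        Option.toFinset_some, Option.elim_none, Option.elim_some, Finset.union_empty, h.one] at h1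
      refine h1.trans (le_of_eq ?_)
      rw [Finset.mul_sum, Finset.sum_add_distrib]
      have e1 : ∑ x, c * a x * y {x} = ∑ x, a x * c * y {x} :=
        Finset.sum_congr rfl fun x _ => by ring
      have e2 : ∑ x, 2 * c * (a x * y {x}) = ∑ x, a x * c * y {x} + ∑ x, a x * c * y {x} := by
        rw [← Finset.sum_add_distrib]
        exact Finset.sum_congr rfl fun x _ => by ring
      rw [e1, e2]
      ring
    · rcases (h.one_le (by omega) v).1.eq_or_lt with h0 | h0
      · refine ⟨_, ih (pc_code (n := n) (d := d) (k := k') ∅ (by simp)) (by omega), fun u => ?_⟩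
        simp only
        rw [← h0, zero_mul]
        by_cases huv : u = v
        · subst huv
          rw [Finset.union_self]
          exact h0.symm
        · have h1 := pair_le h (by omega) huv
          linarith [h1.1, h1.2.1]
      · refine ⟨_, ih (pc_in h v h0) (by omega), fun u => ?_⟩
        simp only
        rw [mul_div_cancel₀ _ h0.ne']
    · rcases (sub_nonneg.2 (h.one_le (by omega) v).2).eq_or_lt with h0 | h0
      · refine ⟨_, ih (pc_code (n := n) (d := d) (k := k') ∅ (by simp)) (by omega), fun u => ?_⟩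
        simp only
        rw [← h0, zero_mul]
        by_cases huv : u = v
        · subst huv
          rw [Finset.union_self, sub_self]
        · have h1 := pair_le h (by omega) huv
          have h2 := (pair_le h (by omega) (Ne.symm huv)).2.1
          rw [Finset.union_comm] at h2
          linarith [h1.2.2]
      · refine ⟨_, ih (pc_out h v h0) (by omega), fun u => ?_⟩
        simp only
        rw [mul_div_cancel₀ _ h0.ne']

lemma sum_le_LB {r : ℕ} {y : Finset (Fin n → Bool) → ℝ} (h : PC n d k y) (hk : r + 2 ≤ k) :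
    ∑ x, y {x} ≤ LB n d r :=
  le_csSup (bdd_LB n d r) ⟨_, ls_of_pc h hk, rfl⟩

/-- comparison with the linear program, general form -/
lemma le_lp_gen (hc : S7_chr) {x : (Fin n → Bool) → ℝ}
    {Y : (Fin n → Bool) → (Fin n → Bool) → ℝ}
    (hpsd : ∀ (c : ℝ) (b : (Fin n → Bool) → ℝ), 0 ≤ c ^ 2 + 2 * c * ∑ u, b u * x u +
      ∑ u, ∑ v, b u * b v * Y u v) (hx0 : ∀ u, 0 ≤ x u)
    (hY0 : ∀ u v, 0 ≤ Y u v) (hYd : ∀ u v, u ≠ v → hammingDist u v < d → Y u v = 0)
    (hYx : ∀ u, Y u u = x u) {l : ℕ → ℝ} (hl : Feas n d l) : ∑ u, x u ≤ Vl n l / l 0 := by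
  obtain ⟨m, hm⟩ : ∃ m : ℝ, m = ∑ u, x u := ⟨_, rfl⟩
  rw [← hm, le_div_iff₀ hl.2.1]
  have hm0 : 0 ≤ m := by
    rw [hm]
    exact Finset.sum_nonneg fun u _ => hx0 u
  have hVl0 : 0 ≤ Vl n l := by
    unfold Vl
    exact Finset.sum_nonneg fun j _ => mul_nonneg (hl.1 j) (Nat.cast_nonneg _)
  rcases hm0.eq_or_lt with h0 | h0
  · rw [← h0, zero_mul]
    exact hVl0
  -- the sum of all entries
  have hsq : m ^ 2 ≤ ∑ x, ∑ z, Y x z := by
    have h1 := hpsd (-m) (fun _ => 1)
    simp only [one_mul] at h1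
    rw [← hm] at h1
    nlinarith
  -- the characters
  have hch : ∀ j, 0 ≤ ∑ x, ∑ z, (kr n j (hammingDist x z) : ℝ) * Y x z := by
    intro j
    have e1 : ∑ x, ∑ z, (kr n j (hammingDist x z) : ℝ) * Y x z =
        ∑ s ∈ Finset.powersetCard j (Finset.univ : Finset (Fin n)),
          ∑ x, ∑ z, PK9f.chi s x * PK9f.chi s z * Y x z := by
      rw [Finset.sum_comm (s := Finset.powersetCard j (Finset.univ : Finset (Fin n)))]
      refine Finset.sum_congr rfl fun x _ => ?_
      rw [Finset.sum_comm (s := Finset.powersetCard j (Finset.univ : Finset (Fin n)))]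
      refine Finset.sum_congr rfl fun z _ => ?_
      rw [PK9f.kr_sum hc, Finset.sum_mul]
    rw [e1]
    refine Finset.sum_nonneg fun s _ => ?_
    have h1 := hpsd 0 (PK9f.chi s)
    have e2 : (0 : ℝ) ^ 2 + 2 * 0 * ∑ u, PK9f.chi s u * x u = 0 := by ring
    rw [e2, zero_add] at h1
    exact h1
  have hk0 : ∀ w, (kr n 0 w : ℝ) = 1 := by
    intro w
    simp [kr]
  have h3 : l 0 * ∑ x, ∑ z, Y x z ≤
      ∑ j ∈ Finset.range (n + 1), l j * ∑ x, ∑ z, (kr n j (hammingDist x z) : ℝ) * Y x z := by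
    rw [Finset.sum_range_succ']
    simp only [hk0, one_mul]
    have h4 : 0 ≤ ∑ j ∈ Finset.range n, l (j + 1) *
        ∑ x, ∑ z, (kr n (j + 1) (hammingDist x z) : ℝ) * Y x z :=
      Finset.sum_nonneg fun j _ => mul_nonneg (hl.1 _) (hch _)
    linarith
  have h5 : ∑ j ∈ Finset.range (n + 1), l j * ∑ x, ∑ z, (kr n j (hammingDist x z) : ℝ) * Y x z =
      ∑ x, ∑ z, (∑ j ∈ Finset.range (n + 1), l j * (kr n j (hammingDist x z) : ℝ)) * Y x z := by
    simp_rw [Finset.mul_sum, Finset.sum_mul]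
    rw [Finset.sum_comm]
    refine Finset.sum_congr rfl fun x _ => ?_
    rw [Finset.sum_comm]
    refine Finset.sum_congr rfl fun z _ => Finset.sum_congr rfl fun j _ => ?_
    ring
  have h6 : ∑ x, ∑ z, (∑ j ∈ Finset.range (n + 1), l j * (kr n j (hammingDist x z) : ℝ)) * Y x z ≤
      m * Vl n l := by
    rw [hm, Finset.sum_mul]
    refine Finset.sum_le_sum fun x' _ => ?_
    rw [← Finset.add_sum_erase _ _ (Finset.mem_univ x')]
    have h7 : ∑ j ∈ Finset.range (n + 1), l j * (kr n j (hammingDist x' x') : ℝ) = Vl n l := by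
      rw [FINf.Vl_eq, hammingDist_self]
    rw [h7, hYx]
    have h8 : ∑ z ∈ Finset.univ.erase x',
        (∑ j ∈ Finset.range (n + 1), l j * (kr n j (hammingDist x' z) : ℝ)) * Y x' z ≤ 0 := by
      refine Finset.sum_nonpos fun z hz => ?_
      rw [Finset.mem_erase] at hz
      by_cases hd : hammingDist x' z < d
      · rw [hYd x' z hz.1.symm hd, mul_zero]
      · exact mul_nonpos_of_nonpos_of_nonneg
          (hl.2.2 _ (by omega) (PK9f.hd_le x' z)) (hY0 x' z)
    linarith
  rw [h5] at h3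
  have h9 : l 0 * m ^ 2 ≤ l 0 * ∑ x, ∑ z, Y x z := mul_le_mul_of_nonneg_left hsq hl.2.1.le
  have h10 : m * (m * l 0) ≤ m * Vl n l := by
    calc m * (m * l 0) = l 0 * m ^ 2 := by ring
      _ ≤ m * Vl n l := h9.trans (h3.trans h6)
  exact le_of_mul_le_mul_left h10 h0

/-- the first level is at least as strong as Delsarte's linear program -/
theorem LS.le_lp (hc : S7_chr) {r : ℕ} {x : (Fin n → Bool) → ℝ} (h : LS n d (r + 1) x)
    {l : ℕ → ℝ} (hl : Feas n d l) : ∑ u, x u ≤ Vl n l / l 0 := by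
  obtain ⟨Y, hs, hdg, hp, hcol⟩ := h
  have hu := unit_of_psd hdg hp
  refine le_lp_gen hc hp (fun u => (hu u).1) (fun u v => ?_) (fun u v huv hlt => ?_) hdg hl
  · obtain ⟨⟨z, hz, hz'⟩, -⟩ := hcol v
    rw [hz']
    exact mul_nonneg (hu v).1 (hz.frac.1 u).1
  · obtain ⟨⟨z, hz, hz'⟩, -⟩ := hcol v
    rw [hz']
    rcases (hu v).1.eq_or_lt with h0 | h0
    · rw [← h0, zero_mul]
    · have h1 : x v * z v = x v := by rw [← hz' v, hdg]
      have h2 : z v = 1 := by
        have h3 : x v * z v = x v * 1 := by rw [h1, mul_one]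
        exact mul_left_cancel₀ h0.ne' h3
      have h3 := hz.frac.2 u v huv hlt
      have h4 := (hz.frac.1 u).1
      have h5 : z u = 0 := by linarith
      rw [h5, mul_zero]

end Pool.Agent.Helper15K9.Ls
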