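import Pool.Agent.Helper15K9.Ker

/-!
Helper15K9 (MP_0430e4_lc): product pseudo-masses of very large level.
-/

set_option autoImplicit false
set_option linter.unusedSectionVars false

namespace Pool.Agent.Helper15K9.Lv

open Finset Pool.Agent.TH41.BL Pool.Agent.Y570.KP

/-- the numerical conditions -/
structure Sm (K L ρ : ℝ) (k : ℕ) : Prop where
  K1 : 1 ≤ K
  L1 : 1 ≤ L
  ρ0 : 0 < ρ
  Kk : K ^ (4 * k) ≤ 2
  ha : 64 * (ρ * L) ≤ 1
  hb : 128 * (k * (ρ * L) ^ 2) ≤ 1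
  hc : 64 * (k * ρ) ≤ 1

lemma pow_bound {x : ℝ} (hx : 0 ≤ x) {k : ℕ} (hk : k * x ≤ 1) {e : ℕ} (he : e ≤ k) :
    (1 + x) ^ e - 1 ≤ 2 * (k * x) := by
  have h1 : (1 + x) ^ e ≤ Real.exp (k * x) := by
    calc (1 + x) ^ e ≤ (1 + x) ^ k := pow_le_pow_right₀ (by linarith) he
      _ ≤ Real.exp x ^ k := by
          refine pow_le_pow_left₀ (by linarith) ?_ k
          have := Real.add_one_le_exp x
          linarith
      _ = Real.exp (k * x) := by rw [← Real.exp_nat_mul]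
  have h0 : 0 ≤ k * x := mul_nonneg (Nat.cast_nonneg _) hx
  have h2 := Real.abs_exp_sub_one_sub_id_le (x := k * x) (by rw [abs_of_nonneg h0]; exact hk)
  have h3 := (abs_le.1 h2).2
  nlinarith

section

variable {X : Type} [Fintype X] [DecidableEq X] {G : X → X → ℝ} {K L ρ : ℝ}

lemma sum_pow_card {x : ℝ} (hx : 0 ≤ x) {k : ℕ} (hk : k * x ≤ 1) (E : Finset X)
    (he : E.card ≤ k) : ∑ F ∈ E.powerset.erase ∅, x ^ F.card ≤ 2 * (k * x) := by
  have h1 : ∑ F ∈ E.powerset, x ^ F.card = (1 + x) ^ E.card := by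
    have h2 := Finset.prod_one_add (f := fun _ : X => x) (s := E)
    rw [Finset.prod_const] at h2
    rw [h2]
    refine Finset.sum_congr rfl fun F _ => ?_
    rw [Finset.prod_const]
  rw [← Finset.add_sum_erase _ _ (Finset.empty_mem_powerset E)] at h1
  simp only [Finset.card_empty, pow_zero] at h1
  have h3 := pow_bound hx hk he
  linarith

lemma yy_union_le' (hG : Good G K L) (hK : 1 ≤ K) (hρ : 0 ≤ ρ) {k : ℕ} {D E F : Finset X}
    (hDE : Disjoint D E) (h : D.card + E.card ≤ k) (hF : F ⊆ E) :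
    yy ρ G (D ∪ F) ≤ yy ρ G D * (ρ * K ^ k) ^ F.card := by
  have hcF : F.card ≤ E.card := Finset.card_le_card hF
  exact yy_union_le hG hK hρ D F (Finset.disjoint_of_subset_right hF hDE) (by omega)

theorem nonneg_all' {k : ℕ} (hG : Good G K L) (hS : Sm K L ρ k) (D E : Finset X)
    (h : D.card + E.card ≤ k) : 0 ≤ cond (yy ρ G) D E ∅ := by
  by_cases hDE : Disjoint D E
  swap
  · obtain ⟨e, he⟩ := Finset.not_disjoint_iff.1 hDE
    rw [cond_zero _ he.2 (Finset.mem_union_left _ he.1)]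
  have hK := hS.K1
  have hρ := hS.ρ0
  have hK0 : 0 < K := by linarith [hS.K1]
  have hKk : K ^ k ≤ 2 := (pow_le_pow_right₀ hK (by omega)).trans hS.Kk
  have hc := hS.hc
  have hk0 : (0 : ℝ) ≤ k := Nat.cast_nonneg k
  have hkρ : 0 ≤ k * ρ := mul_nonneg hk0 hρ.le
  have hx : k * (ρ * K ^ k) ≤ 2 * (k * ρ) := by
    calc k * (ρ * K ^ k) = k * ρ * K ^ k := by ring
      _ ≤ k * ρ * 2 := mul_le_mul_of_nonneg_left hKk hkρ
      _ = _ := by ring
  unfold Pool.Agent.Y570.KP.cond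
  rw [← Finset.add_sum_erase _ _ (Finset.empty_mem_powerset E)]
  simp only [Finset.card_empty, pow_zero, one_mul, Finset.union_empty]
  have hy := yy_nonneg hρ.le (G := G) D
  have h1 : ∑ F ∈ E.powerset.erase ∅, -(yy ρ G D * (ρ * K ^ k) ^ F.card) ≤
      ∑ F ∈ E.powerset.erase ∅, (-1) ^ F.card * yy ρ G (D ∪ F) := by
    refine Finset.sum_le_sum fun F hF => ?_
    rw [Finset.mem_erase, Finset.mem_powerset] at hF
    have h7 := yy_union_le' hG hK hρ.le hDE h hF.2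
    have h11 : |(-1 : ℝ) ^ F.card * yy ρ G (D ∪ F)| = yy ρ G (D ∪ F) := by
      rw [abs_mul, abs_pow, abs_neg, abs_one, one_pow, one_mul, abs_of_nonneg (yy_nonneg hρ.le _)]
    have h12 := neg_abs_le ((-1 : ℝ) ^ F.card * yy ρ G (D ∪ F))
    linarith
  rw [Finset.sum_neg_distrib, ← Finset.mul_sum] at h1
  have h2 := sum_pow_card (x := ρ * K ^ k) (by positivity) (k := k) (by linarith) E (by omega)
  have h3 := mul_le_mul_of_nonneg_left h2 hy
  have h4 : yy ρ G D * (2 * (k * (ρ * K ^ k))) ≤ yy ρ G D * 1 :=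
    mul_le_mul_of_nonneg_left (by linarith) hy
  linarith

/-- the upper bound of the corrections -/
lemma QQ_upper' (hG : Good G K L) (hK : 1 ≤ K) (hL : 0 < L) (hρ : 0 ≤ ρ) (D F : Finset X) {k : ℕ}
    (hDF : Disjoint D F) (hD : D.card ≤ k) (hF : F.card ≤ k) (a : Option X → ℝ)
    (ha : ∀ x ∈ F, a (some x) = 0) :
    |QQ ρ G (D ∪ F) a| ≤ yy ρ G (D ∪ F) *
      (2 * (a none + ∑ x ∈ D, a (some x) + ∑ x, vv ρ G D x * a (some x)) ^ 2 +
      (2 * (ρ * K ^ (3 * k) * F.card ^ 2 * L ^ 2) + K ^ k + L * (ρ * K ^ (2 * k)) * K ^ k) *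
        ∑ x, vv ρ G D x * a (some x) ^ 2) := by
  rw [QQ_eq hG, abs_mul, abs_of_nonneg (yy_nonneg hρ _)]
  refine mul_le_mul_of_nonneg_left ?_ (yy_nonneg hρ _)
  have hK0 : 0 ≤ K := by linarith
  obtain ⟨v, hv⟩ : ∃ v : X → ℝ, v = vv ρ G D := ⟨_, rfl⟩
  obtain ⟨g, hg⟩ : ∃ g : X → ℝ, g = fun x => ∏ s ∈ F, G x s := ⟨_, rfl⟩
  have hvv : ∀ x, vv ρ G (D ∪ F) x = v x * g x := fun x => by rw [vv_union ρ G hDF, hv, hg]
  have hv0 : ∀ x, 0 ≤ v x := fun x => by rw [hv]; exact vv_nonneg hG hρ D x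
  have hg0 : ∀ x, 0 ≤ g x := fun x => by rw [hg]; exact prod_nonneg' hG F x
  have hvle : ∀ x, v x ≤ ρ * K ^ k := fun x => by rw [hv]; exact vv_le hG hK hρ D x hD
  have hgle : ∀ x, g x ≤ K ^ k := fun x => by rw [hg]; exact prod_le hG hK F x hF
  have hsumDF : ∑ x ∈ D ∪ F, a (some x) = ∑ x ∈ D, a (some x) := by
    rw [Finset.sum_union hDF, Finset.sum_eq_zero ha, add_zero]
  rw [hsumDF]
  simp only [hvv]
  rw [← hv]
  obtain ⟨B, hB⟩ : ∃ B : ℝ, B = a none + ∑ x ∈ D, a (some x) + ∑ x, v x * a (some x) := ⟨_, rfl⟩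
  obtain ⟨V, hV⟩ : ∃ V : ℝ, V = ∑ x, v x * a (some x) ^ 2 := ⟨_, rfl⟩
  have hV0 : 0 ≤ V := by
    rw [hV]
    exact Finset.sum_nonneg fun x _ => mul_nonneg (hv0 x) (sq_nonneg _)
  obtain ⟨T, hT⟩ : ∃ T : ℝ, T = ∑ x, v x * (g x - 1) * a (some x) := ⟨_, rfl⟩
  have e1 : a none + ∑ x ∈ D, a (some x) + ∑ x, v x * g x * a (some x) = B + T := by
    rw [hB, hT, add_assoc (a none + _), ← Finset.sum_add_distrib]
    congr 1
    refine Finset.sum_congr rfl fun x _ => ?_
    ring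
  rw [e1, ← hB, ← hV]
  -- the square of T
  have hT2 : T ^ 2 ≤ (ρ * K ^ (3 * k) * F.card ^ 2 * L ^ 2) * V := by
    have c1 : T ^ 2 ≤ (∑ x, v x * (g x - 1) ^ 2) * V := by
      have c2 := Finset.sum_mul_sq_le_sq_mul_sq Finset.univ (fun x => √(v x) * (g x - 1))
        (fun x => √(v x) * a (some x))
      have c3 : ∑ x, √(v x) * (g x - 1) * (√(v x) * a (some x)) = T := by
        rw [hT]
        refine Finset.sum_congr rfl fun x _ => ?_
        have := Real.mul_self_sqrt (hv0 x)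
        calc √(v x) * (g x - 1) * (√(v x) * a (some x)) =
            (√(v x) * √(v x)) * (g x - 1) * a (some x) := by ring
          _ = _ := by rw [this]
      have c4 : ∑ x, (√(v x) * (g x - 1)) ^ 2 = ∑ x, v x * (g x - 1) ^ 2 := by
        refine Finset.sum_congr rfl fun x _ => ?_
        rw [mul_pow, Real.sq_sqrt (hv0 x)]
      have c5 : ∑ x, (√(v x) * a (some x)) ^ 2 = V := by
        rw [hV]
        refine Finset.sum_congr rfl fun x _ => ?_
        rw [mul_pow, Real.sq_sqrt (hv0 x)]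
      rw [c3, c4, c5] at c2
      exact c2
    have c6 : ∑ x, v x * (g x - 1) ^ 2 ≤ ρ * K ^ (3 * k) * F.card ^ 2 * L ^ 2 := by
      have c7 : ∀ x, v x * (g x - 1) ^ 2 ≤
          ρ * K ^ k * (F.card * K ^ (2 * k)) * ∑ f ∈ F, (G x f - 1) ^ 2 := by
        intro x
        have c8 := prod_sub_sq hG hK F x le_rfl
        have c9 : (g x - 1) ^ 2 ≤ F.card * K ^ (2 * k) * ∑ f ∈ F, (G x f - 1) ^ 2 := by
          rw [hg]
          refine c8.trans ?_
          have c10 : K ^ (2 * F.card) ≤ K ^ (2 * k) := pow_le_pow_right₀ hK (by omega)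
          refine mul_le_mul_of_nonneg_right ?_ (Finset.sum_nonneg fun _ _ => sq_nonneg _)
          exact mul_le_mul_of_nonneg_left c10 (Nat.cast_nonneg _)
        calc v x * (g x - 1) ^ 2 ≤ (ρ * K ^ k) * (F.card * K ^ (2 * k) *
              ∑ f ∈ F, (G x f - 1) ^ 2) :=
              mul_le_mul (hvle x) c9 (sq_nonneg _) (mul_nonneg hρ (pow_nonneg hK0 _))
          _ = _ := by ring
      calc ∑ x, v x * (g x - 1) ^ 2
          ≤ ∑ x, ρ * K ^ k * (F.card * K ^ (2 * k)) * ∑ f ∈ F, (G x f - 1) ^ 2 :=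
            Finset.sum_le_sum fun x _ => c7 x
        _ = ρ * K ^ k * (F.card * K ^ (2 * k)) * ∑ f ∈ F, ∑ x, (G x f - 1) ^ 2 := by
            rw [← Finset.mul_sum, Finset.sum_comm]
        _ ≤ ρ * K ^ k * (F.card * K ^ (2 * k)) * (F.card * L ^ 2) := by
            refine mul_le_mul_of_nonneg_left ?_ (by positivity)
            calc ∑ f ∈ F, ∑ x, (G x f - 1) ^ 2 ≤ ∑ _f ∈ F, L ^ 2 :=
                  Finset.sum_le_sum fun f _ => sum_sq_le hG hL f
              _ = F.card * L ^ 2 := by rw [Finset.sum_const, nsmul_eq_mul]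
        _ = ρ * K ^ (3 * k) * F.card ^ 2 * L ^ 2 := by
            have : K ^ (3 * k) = K ^ k * K ^ (2 * k) := by
              rw [← pow_add]
              congr 1
              ring
            rw [this]
            ring
    exact c1.trans (mul_le_mul_of_nonneg_right c6 hV0)
  have hS1 : ∑ x, v x * g x * a (some x) ^ 2 ≤ K ^ k * V := by
    rw [hV, Finset.mul_sum]
    refine Finset.sum_le_sum fun x _ => ?_
    have : v x * g x * a (some x) ^ 2 = g x * (v x * a (some x) ^ 2) := by ring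
    rw [this]
    exact mul_le_mul_of_nonneg_right (hgle x) (mul_nonneg (hv0 x) (sq_nonneg _))
  have hS0 : 0 ≤ ∑ x, v x * g x * a (some x) ^ 2 :=
    Finset.sum_nonneg fun x _ => mul_nonneg (mul_nonneg (hv0 x) (hg0 x)) (sq_nonneg _)
  have hq := quad_le hG hL.le (fun x => v x * g x) (ρ * K ^ (2 * k))
    (fun x => mul_nonneg (hv0 x) (hg0 x)) (fun x => by
      have : K ^ (2 * k) = K ^ k * K ^ k := by
        rw [← pow_add]
        congr 1
        ring
      rw [this, ← mul_assoc]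
      exact mul_le_mul (hvle x) (hgle x) (hg0 x) (mul_nonneg hρ (pow_nonneg hK0 _)))
    (fun x => a (some x))
  have hq2 : L * (ρ * K ^ (2 * k)) * ∑ x, v x * g x * a (some x) ^ 2 ≤
      L * (ρ * K ^ (2 * k)) * (K ^ k * V) :=
    mul_le_mul_of_nonneg_left hS1 (by positivity)
  have hBT : (B + T) ^ 2 ≤ 2 * B ^ 2 + 2 * T ^ 2 := by nlinarith [sq_nonneg (B - T)]
  rw [abs_le]
  have hq3 := abs_le.1 hq
  have hBT0 := sq_nonneg (B + T)
  have hT0 := sq_nonneg T
  have hB0 := sq_nonneg B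
  have hp : 0 ≤ K ^ k * V := mul_nonneg (pow_nonneg hK0 _) hV0
  have hc0 : 0 ≤ (ρ * K ^ (3 * k) * F.card ^ 2 * L ^ 2) * V := hT0.trans hT2
  constructor
  · have := hq3.1
    nlinarith
  · have := hq3.2
    nlinarith

theorem psd_all' {k : ℕ} (hG : Good G K L) (hS : Sm K L ρ k) (D E : Finset X)
    (h : D.card + E.card ≤ k) (a : Option X → ℝ) :
    0 ≤ ∑ s : Option X, ∑ t : Option X,
      a s * a t * cond (yy ρ G) D E (s.toFinset ∪ t.toFinset) := by
  by_cases hDE : Disjoint D E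
  swap
  · obtain ⟨e, he⟩ := Finset.not_disjoint_iff.1 hDE
    refine le_of_eq (Eq.symm ?_)
    refine Finset.sum_eq_zero fun s _ => Finset.sum_eq_zero fun t _ => ?_
    rw [cond_zero _ he.2 (Finset.mem_union_left _ he.1), mul_zero]
  have hK := hS.K1
  have hρ := hS.ρ0
  have hK0 : 0 < K := by linarith [hS.K1]
  have hL0 : 0 < L := by linarith [hS.L1]
  -- remove the rows of `E`
  obtain ⟨b, hb⟩ : ∃ b : Option X → ℝ, b = fun s => if s.toFinset ⊆ E ∧ s.isSome then 0 else a s :=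
    ⟨_, rfl⟩
  have hbE : ∀ x ∈ E, b (some x) = 0 := by
    intro x hx
    rw [hb]
    simp [hx]
  have hab : ∀ s : Option X, (∀ e ∈ E, e ∉ s.toFinset) → a s = b s := by
    intro s hs
    rw [hb]
    rcases s with - | x
    · simp
    · have : x ∉ E := fun hx => hs x hx (by simp)
      simp [this]
  have hrep : ∑ s : Option X, ∑ t : Option X,
      a s * a t * cond (yy ρ G) D E (s.toFinset ∪ t.toFinset) =
      ∑ s : Option X, ∑ t : Option X,
        b s * b t * cond (yy ρ G) D E (s.toFinset ∪ t.toFinset) := by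
    refine Finset.sum_congr rfl fun s _ => Finset.sum_congr rfl fun t _ => ?_
    by_cases hc : ∃ e ∈ E, e ∈ s.toFinset ∪ t.toFinset
    · obtain ⟨e, he1, he2⟩ := hc
      rw [cond_zero _ he1 (Finset.mem_union_right _ he2), mul_zero, mul_zero]
    · push Not at hc
      rw [hab s fun e he h' => hc e he (Finset.mem_union_left _ h'),
        hab t fun e he h' => hc e he (Finset.mem_union_right _ h')]
  rw [hrep]
  -- the alternating sum of the forms
  have halt : ∑ s : Option X, ∑ t : Option X,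
      b s * b t * cond (yy ρ G) D E (s.toFinset ∪ t.toFinset) =
      ∑ F ∈ E.powerset, (-1) ^ F.card * QQ ρ G (D ∪ F) b := by
    unfold Pool.Agent.Y570.KP.cond Pool.Agent.Y570.KP.QQ
    simp_rw [Finset.mul_sum]
    rw [Finset.sum_comm' (s := E.powerset) (t := fun _ => (Finset.univ : Finset (Option X)))
      (t' := (Finset.univ : Finset (Option X))) (s' := fun _ => E.powerset) (by simp)]
    refine Finset.sum_congr rfl fun s _ => ?_
    rw [Finset.sum_comm' (s := E.powerset) (t := fun _ => (Finset.univ : Finset (Option X)))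
      (t' := (Finset.univ : Finset (Option X))) (s' := fun _ => E.powerset) (by simp)]
    refine Finset.sum_congr rfl fun t _ => Finset.sum_congr rfl fun F _ => ?_
    ring
  rw [halt, ← Finset.add_sum_erase _ _ (Finset.empty_mem_powerset E)]
  simp only [Finset.card_empty, pow_zero, one_mul, Finset.union_empty]
  have hy := yy_nonneg hρ.le (G := G) D
  -- the numbers
  have hk0 : (0 : ℝ) ≤ k := Nat.cast_nonneg k
  have hP : ∀ j : ℕ, j ≤ 4 * k → K ^ j ≤ 2 := fun j hj =>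
    (pow_le_pow_right₀ hK hj).trans hS.Kk
  have hP1 : K ^ k ≤ 2 := hP k (by omega)
  have hP0 : 0 < K ^ k := pow_pos hK0 k
  have hkρ : 0 ≤ k * ρ := mul_nonneg hk0 hρ.le
  have hρL : 0 ≤ ρ * L := by positivity
  have hx : k * (ρ * K ^ k) ≤ 2 * (k * ρ) := by
    calc k * (ρ * K ^ k) = k * ρ * K ^ k := by ring
      _ ≤ k * ρ * 2 := mul_le_mul_of_nonneg_left hP1 hkρ
      _ = _ := by ring
  have na := hS.ha
  have nb := hS.hb
  have nc := hS.hc
  -- the main term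
  have hs : L * (ρ * K ^ k) ≤ 1 / 2 := by
    have e1 : L * (ρ * K ^ k) = ρ * L * K ^ k := by ring
    have e2 : ρ * L * K ^ k ≤ ρ * L * 2 := mul_le_mul_of_nonneg_left hP1 hρL
    rw [e1]
    linarith
  have hmain := QQ_lower hG hK hL0.le hρ.le D (k := k) (by omega) hs b
  obtain ⟨B2, hB2⟩ : ∃ B2 : ℝ, B2 = (b none + ∑ x ∈ D, b (some x) +
    ∑ x, vv ρ G D x * b (some x)) ^ 2 := ⟨_, rfl⟩
  obtain ⟨V, hV⟩ : ∃ V : ℝ, V = ∑ x, vv ρ G D x * b (some x) ^ 2 := ⟨_, rfl⟩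
  have hB20 : 0 ≤ B2 := by rw [hB2]; exact sq_nonneg _
  have hV0 : 0 ≤ V := by
    rw [hV]
    exact Finset.sum_nonneg fun x _ => mul_nonneg (vv_nonneg hG hρ.le D x) (sq_nonneg _)
  rw [← hB2, ← hV] at hmain
  obtain ⟨x, hxd⟩ : ∃ x : ℝ, x = ρ * K ^ k := ⟨_, rfl⟩
  have hx0 : 0 ≤ x := by rw [hxd]; positivity
  obtain ⟨C1, hC1⟩ : ∃ C1 : ℝ, C1 = 2 * (ρ * K ^ (3 * k) * L ^ 2) := ⟨_, rfl⟩
  obtain ⟨C2, hC2⟩ : ∃ C2 : ℝ, C2 = K ^ k + L * (ρ * K ^ (2 * k)) * K ^ k := ⟨_, rfl⟩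
  have hC10 : 0 ≤ C1 := by rw [hC1]; positivity
  have hC20 : 0 ≤ C2 := by rw [hC2]; positivity
  have hcor : ∑ F ∈ E.powerset.erase ∅, -(yy ρ G D * (x ^ F.card * (2 * B2 + C2 * V) +
      (4 * x) ^ F.card * (C1 * V))) ≤
      ∑ F ∈ E.powerset.erase ∅, (-1) ^ F.card * QQ ρ G (D ∪ F) b := by
    refine Finset.sum_le_sum fun F hF => ?_
    rw [Finset.mem_erase, Finset.mem_powerset] at hF
    have hd : Disjoint D F := Finset.disjoint_of_subset_right hF.2 hDE
    have hcF : F.card ≤ E.card := Finset.card_le_card hF.2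
    have h7 := yy_union_le' hG hK hρ.le hDE h hF.2
    rw [← hxd] at h7
    have h11 := QQ_upper' hG hK hL0 hρ.le D F hd (k := k) (by omega) (by omega) b
      (fun x hx => hbE x (hF.2 hx))
    rw [← hB2, ← hV] at h11
    have h12 : |(-1 : ℝ) ^ F.card * QQ ρ G (D ∪ F) b| = |QQ ρ G (D ∪ F) b| := by
      rw [abs_mul, abs_pow, abs_neg, abs_one, one_pow, one_mul]
    have h13 := neg_abs_le ((-1 : ℝ) ^ F.card * QQ ρ G (D ∪ F) b)
    have e1 : 2 * B2 + (2 * (ρ * K ^ (3 * k) * F.card ^ 2 * L ^ 2) + K ^ k +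
        L * (ρ * K ^ (2 * k)) * K ^ k) * V = (2 * B2 + C2 * V) + F.card ^ 2 * (C1 * V) := by
      rw [hC1, hC2]
      ring
    rw [e1] at h11
    have h14 : yy ρ G (D ∪ F) * ((2 * B2 + C2 * V) + F.card ^ 2 * (C1 * V)) ≤
        yy ρ G D * x ^ F.card * ((2 * B2 + C2 * V) + F.card ^ 2 * (C1 * V)) :=
      mul_le_mul_of_nonneg_right h7 (by positivity)
    have h15 : ((F.card : ℝ)) ^ 2 ≤ 4 ^ F.card := by
      have h16 : F.card < 2 ^ F.card := Nat.lt_two_pow_self
      have h17 : (F.card : ℝ) ≤ 2 ^ F.card := by exact_mod_cast h16.le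
      calc ((F.card : ℝ)) ^ 2 ≤ (2 ^ F.card) ^ 2 := pow_le_pow_left₀ (Nat.cast_nonneg _) h17 2
        _ = 4 ^ F.card := by
            rw [← pow_mul, mul_comm, pow_mul]
            norm_num
    have h18 : yy ρ G D * x ^ F.card * (F.card ^ 2 * (C1 * V)) ≤
        yy ρ G D * x ^ F.card * (4 ^ F.card * (C1 * V)) :=
      mul_le_mul_of_nonneg_left (mul_le_mul_of_nonneg_right h15 (by positivity)) (by positivity)
    have e2 : yy ρ G D * (x ^ F.card * (2 * B2 + C2 * V) + (4 * x) ^ F.card * (C1 * V)) =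
        yy ρ G D * x ^ F.card * (2 * B2 + C2 * V) +
          yy ρ G D * x ^ F.card * (4 ^ F.card * (C1 * V)) := by
      rw [mul_pow]
      ring
    rw [e2]
    have e3 : yy ρ G D * x ^ F.card * ((2 * B2 + C2 * V) + F.card ^ 2 * (C1 * V)) =
        yy ρ G D * x ^ F.card * (2 * B2 + C2 * V) +
          yy ρ G D * x ^ F.card * (F.card ^ 2 * (C1 * V)) := by ring
    linarith
  have hsum1 := sum_pow_card hx0 (k := k) (by rw [hxd]; linarith) E (by omega)
  have hsum2 := sum_pow_card (x := 4 * x) (by positivity) (k := k) (by rw [hxd]; linarith) E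
    (by omega)
  have hcor2 : ∑ F ∈ E.powerset.erase ∅, -(yy ρ G D * (x ^ F.card * (2 * B2 + C2 * V) +
      (4 * x) ^ F.card * (C1 * V))) =
      -(yy ρ G D * ((∑ F ∈ E.powerset.erase ∅, x ^ F.card) * (2 * B2 + C2 * V) +
        (∑ F ∈ E.powerset.erase ∅, (4 * x) ^ F.card) * (C1 * V))) := by
    rw [Finset.sum_neg_distrib, ← Finset.mul_sum, Finset.sum_add_distrib, ← Finset.sum_mul,
      ← Finset.sum_mul]
  rw [hcor2] at hcor
  have hC2le : C2 ≤ 3 := by
    have e1 : L * (ρ * K ^ (2 * k)) * K ^ k = ρ * L * K ^ (3 * k) := by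
      have : K ^ (3 * k) = K ^ (2 * k) * K ^ k := by
        rw [← pow_add]
        congr 1
        ring
      rw [this]
      ring
    have e2 : ρ * L * K ^ (3 * k) ≤ ρ * L * 2 :=
      mul_le_mul_of_nonneg_left (hP _ (by omega)) hρL
    rw [hC2, e1]
    linarith
  have hkx : k * x ≤ 2 * (k * ρ) := by rw [hxd]; exact hx
  have hkx0 : 0 ≤ k * x := mul_nonneg hk0 hx0
  have hlast : (∑ F ∈ E.powerset.erase ∅, x ^ F.card) * (2 * B2 + C2 * V) +
      (∑ F ∈ E.powerset.erase ∅, (4 * x) ^ F.card) * (C1 * V) ≤ B2 + 1 / 2 * V := by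
    have e1 : (∑ F ∈ E.powerset.erase ∅, x ^ F.card) * (2 * B2 + C2 * V) ≤
        2 * (k * x) * (2 * B2 + C2 * V) := mul_le_mul_of_nonneg_right hsum1 (by positivity)
    have e2 : (∑ F ∈ E.powerset.erase ∅, (4 * x) ^ F.card) * (C1 * V) ≤
        2 * (k * (4 * x)) * (C1 * V) := mul_le_mul_of_nonneg_right hsum2 (by positivity)
    have e3 : k * x * C1 ≤ 4 * (k * (ρ * L) ^ 2) := by
      have e4 : k * x * C1 = 2 * (k * (ρ * L) ^ 2) * K ^ (4 * k) := by
        have : K ^ (4 * k) = K ^ k * K ^ (3 * k) := by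
          rw [← pow_add]
          congr 1
          ring
        rw [hxd, hC1, this]
        ring
      rw [e4]
      have e5 : 2 * (k * (ρ * L) ^ 2) * K ^ (4 * k) ≤ 2 * (k * (ρ * L) ^ 2) * 2 :=
        mul_le_mul_of_nonneg_left hS.Kk (by positivity)
      linarith
    have e6 : 2 * (k * (4 * x)) * (C1 * V) = 8 * (k * x * C1) * V := by ring
    have e7 : 8 * (k * x * C1) * V ≤ 1 / 4 * V :=
      mul_le_mul_of_nonneg_right (by linarith) hV0
    have e8 : 2 * (k * x) * (2 * B2 + C2 * V) ≤ 4 * (k * ρ) * (2 * B2 + 3 * V) := by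
      refine mul_le_mul (by linarith) ?_ (by positivity) (by positivity)
      have := mul_le_mul_of_nonneg_right hC2le hV0
      linarith
    have e9 : 4 * (k * ρ) * (2 * B2 + 3 * V) ≤ 1 / 16 * (2 * B2 + 3 * V) :=
      mul_le_mul_of_nonneg_right (by linarith) (by positivity)
    rw [e6] at e2
    linarith
  have hfin := mul_le_mul_of_nonneg_left hlast hy
  linarith

end

variable {n d k : ℕ}

/-- pseudo-codes from kernels -/
lemma pc_of_good' {G : (Fin n → Bool) → (Fin n → Bool) → ℝ} {K L ρ : ℝ} (hG : Good G K L)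
    (hd : ∀ u v, hammingDist u v < d → G u v = 0) (hS : Sm K L ρ k) :
    PC n d k (yy ρ G) := by
  refine ⟨yy_empty, ?_, fun D E hDE => nonneg_all' hG hS D E hDE,
    fun D E hDE => psd_all' hG hS D E (by omega)⟩
  intro S u hu v hv huv hlt
  unfold yy pr
  have : ∏ p ∈ S.offDiag, √(G p.1 p.2) = 0 := by
    refine Finset.prod_eq_zero (i := (u, v)) (Finset.mem_offDiag.2 ⟨hu, hv, huv⟩) ?_
    rw [hd u v hlt, Real.sqrt_zero]
  rw [this, mul_zero]

/-- the value -/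
lemma value_le (hk : 1 ≤ k) {G : (Fin n → Bool) → (Fin n → Bool) → ℝ} {K L : ℝ} (hG : Good G K L)
    (hd : ∀ u v, hammingDist u v < d → G u v = 0) (hK : 1 ≤ K) (hKk : K ^ (4 * k) ≤ 2)
    (hkL : (k : ℝ) ≤ L ^ 2) {w : (Fin n → Bool) → ℝ} (hw : ∀ x, 0 ≤ w x) :
    (64 * √k * L)⁻¹ * ∑ x, w x ≤ SW n d k w := by
  have hL1 : 1 ≤ L := hG.one_le
  have hL0 : 0 < L := by linarith
  have hk1 : (1 : ℝ) ≤ k := by exact_mod_cast hk
  have hsk : 1 ≤ √(k : ℝ) := Real.one_le_sqrt.2 hk1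
  have hsk0 : 0 < √(k : ℝ) := by linarith
  have hsq : √(k : ℝ) * √(k : ℝ) = k := Real.mul_self_sqrt (by linarith)
  have hskL : √(k : ℝ) ≤ L := by
    rw [Real.sqrt_le_left hL0.le]
    exact hkL
  obtain ⟨ρ, hρ⟩ : ∃ ρ : ℝ, ρ = (64 * √k * L)⁻¹ := ⟨_, rfl⟩
  have hρ0 : 0 < ρ := by rw [hρ]; positivity
  have e1 : 64 * (ρ * L) * √k = 1 := by
    rw [hρ]
    field_simp
  have hρL : 0 < ρ * L := by positivity
  have hS : Sm K L ρ k := by
    refine ⟨hK, hL1, hρ0, hKk, ?_, ?_, ?_⟩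
    · nlinarith
    · have e2 : 4096 * (k * (ρ * L) ^ 2) = (64 * (ρ * L) * √k) ^ 2 := by
        calc 4096 * (k * (ρ * L) ^ 2) = 4096 * (√k * √k * (ρ * L) ^ 2) := by rw [hsq]
          _ = (64 * (ρ * L) * √k) ^ 2 := by ring
      rw [e1] at e2
      linarith
    · have e2 : 64 * (k * ρ) * L = √k := by
        calc 64 * (k * ρ) * L = 64 * (ρ * L) * k := by ring
          _ = 64 * (ρ * L) * (√k * √k) := by rw [hsq]
          _ = (64 * (ρ * L) * √k) * √k := by ring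
          _ = √k := by rw [e1, one_mul]
      by_contra hcon
      push Not at hcon
      have e3 : 1 * L < 64 * (k * ρ) * L := mul_lt_mul_of_pos_right hcon hL0
      linarith
  have hpc := pc_of_good' (d := d) hG hd hS
  refine le_csSup (bdd_SW hk hw) ⟨_, hpc, ?_⟩
  rw [← hρ, Finset.mul_sum]
  refine Finset.sum_congr rfl fun u _ => ?_
  rw [yy_single]
  ring

end Pool.Agent.Helper15K9.Lv
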