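import Pool.Agent.Helper15K9.LS

/-!
Helper15K9 (MP_0430e4_lc): the exponents of the bounds of large levels.
-/

set_option autoImplicit false
set_option linter.unusedSectionVars false

open Filter Topology

namespace Pool.Agent.Helper15K9.Lw

open Pool.Agent.TH41.BL Pool.Agent.Y570.KP Pool.Agent.Helper15K9.Tw Pool.Agent.Helper15K9.Lv

lemma nd_le {δ₀ x : ℝ} (h0 : 0 < δ₀) (h : Nd δ₀ x) : x ≤ Real.log 2 := by
  by_contra hcon
  push Not at hcon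
  obtain ⟨g, hg⟩ : ∃ g : ℝ, g = x - Real.log 2 := ⟨_, rfl⟩
  have hg0 : 0 < g := by rw [hg]; linarith
  obtain ⟨κ, hκ⟩ : ∃ κ : ℝ, κ = g / (2 * δ₀) := ⟨_, rfl⟩
  have hκ0 : 0 < κ := by rw [hκ]; positivity
  have hκδ : κ * (δ₀ / 2) = g / 4 := by
    rw [hκ]
    field_simp
    ring
  obtain ⟨n₀, hn₀⟩ := h κ hκ0 (δ₀ / 2) (by linarith) (by linarith) (g / 4) (by linarith) (by
    have : κ * (δ₀ - δ₀ / 2) = κ * (δ₀ / 2) := by ring
    rw [this, hκδ])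
  obtain ⟨n₁, hn₁⟩ := exists_nat_ge (2 / δ₀)
  obtain ⟨n, hn⟩ : ∃ n : ℕ, n = n₀ + n₁ + 1 := ⟨_, rfl⟩
  have hn1 : (n₁ : ℝ) ≤ n := by exact_mod_cast (by omega : n₁ ≤ n)
  have hnp : (0 : ℝ) < n := by exact_mod_cast (by omega : 0 < n)
  obtain ⟨G, hG, -⟩ := hn₀ n (by omega) 1 le_rfl (by
    have h2 : 2 / δ₀ ≤ n := hn₁.trans hn1
    rw [div_le_iff₀ h0] at h2
    push_cast
    linarith)
  have h3 := hG.one_le
  have h4 : Real.exp (n * (Real.log 2 - x + κ * (δ₀ / 2) + g / 4)) < 1 := by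
    rw [Real.exp_lt_one_iff, hκδ]
    have h5 : Real.log 2 - x + g / 4 + g / 4 = -(g / 2) := by rw [hg]; ring
    rw [h5]
    nlinarith
  linarith

/-- the general lower bound -/
theorem gen {δ₁ x₁ δ₀ δ c : ℝ} (h : Nd δ₁ x₁) (hδ : 0 ≤ δ) (hδ₀ : δ < δ₀) (hδ₁ : δ₀ ≤ δ₁)
    (hc : 0 < c) (ε : ℝ) (hε : 0 < ε) :
    ∃ n₀ : ℕ, ∀ n : ℕ, n₀ ≤ n → ∀ k : ℕ, 1 ≤ k → (k : ℝ) ≤ Real.exp (n * c) →
      ∀ d : ℕ, 1 ≤ d → (d : ℝ) ≤ δ * n + 1 →
      ∀ w : (Fin n → Bool) → ℝ, (∀ u, 0 ≤ w u) →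
      Real.exp (n * (min (x₁ - c * (δ / (δ₀ - δ) + 1 / 2)) (Real.log 2 - c) - ε)) * ∑ u, w u ≤
        2 ^ n * SW n d k w := by
  have hdd : 0 < δ₀ - δ := by linarith
  -- the slack
  have hcont : ContinuousAt (fun t : ℝ => (c + 2 * t) * (δ + t) / (δ₀ - δ - t)) 0 := by
    refine ContinuousAt.div (by fun_prop) (by fun_prop) ?_
    simp only [sub_zero]
    exact hdd.ne'
  have h0 : (c + 2 * 0) * (δ + 0) / (δ₀ - δ - 0) = c * (δ / (δ₀ - δ)) := by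
    simp only [mul_zero, add_zero, sub_zero]
    ring
  have hev : ∀ᶠ t in 𝓝 (0 : ℝ), (c + 2 * t) * (δ + t) / (δ₀ - δ - t) <
      c * (δ / (δ₀ - δ)) + ε / 4 := by
    refine hcont.eventually_lt continuousAt_const ?_
    rw [h0]
    linarith
  have hev2 : ∀ᶠ t in 𝓝 (0 : ℝ), t < min (ε / 4) (δ₀ - δ) :=
    eventually_lt_nhds (lt_min (by linarith) hdd)
  have hev3 := (hev.and hev2).filter_mono (nhdsWithin_le_nhds (s := Set.Ioi 0))
  have hev4 : ∀ᶠ t in 𝓝[>] (0 : ℝ), 0 < t := eventually_mem_nhdsWithin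
  obtain ⟨t, ⟨ht1, ht2⟩, ht0⟩ := (hev3.and hev4).exists
  have ht3 : t < ε / 4 := lt_of_lt_of_le ht2 (min_le_left _ _)
  have ht4 : t < δ₀ - δ := lt_of_lt_of_le ht2 (min_le_right _ _)
  have ht5 : 0 < δ₀ - δ - t := by linarith
  obtain ⟨κ, hκ⟩ : ∃ κ : ℝ, κ = (c + 2 * t) / (δ₀ - δ - t) := ⟨_, rfl⟩
  have hκ0 : 0 < κ := by rw [hκ]; positivity
  have hκ1 : κ * (δ₀ - (δ + t)) = c + 2 * t := by
    rw [hκ]
    have : δ₀ - (δ + t) = δ₀ - δ - t := by ring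
    rw [this, div_mul_cancel₀ _ ht5.ne']
  have hκ2 : κ * (δ + t) < c * (δ / (δ₀ - δ)) + ε / 4 := by
    refine lt_of_eq_of_lt ?_ ht1
    rw [hκ]
    ring
  have hκ3 : c + 2 * t ≤ κ * (δ₁ - (δ + t)) := by
    rw [← hκ1]
    exact mul_le_mul_of_nonneg_left (by linarith) hκ0.le
  obtain ⟨n₁, hn₁⟩ := h κ hκ0 (δ + t) (by linarith) (by linarith) t ht0 (by linarith)
  obtain ⟨n₂, hn₂⟩ := exists_nat_ge (1 / t)
  obtain ⟨n₃, hn₃⟩ := exists_nat_ge (8 / t)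
  obtain ⟨n₄, hn₄⟩ := exists_nat_ge (256 / ε)
  refine ⟨n₁ + n₂ + n₃ + n₄, fun n hn k hk hkn d hd1 hd w hw => ?_⟩
  have hnp : (0 : ℝ) ≤ n := Nat.cast_nonneg n
  have hn2 : 1 ≤ t * n := by
    have h1 : (n₂ : ℝ) ≤ n := by exact_mod_cast (by omega : n₂ ≤ n)
    have h2 := hn₂.trans h1
    rw [div_le_iff₀ ht0] at h2
    linarith
  have hn3 : 8 ≤ t * n := by
    have h1 : (n₃ : ℝ) ≤ n := by exact_mod_cast (by omega : n₃ ≤ n)
    have h2 := hn₃.trans h1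
    rw [div_le_iff₀ ht0] at h2
    linarith
  have hn4 : 256 ≤ ε * n := by
    have h1 : (n₄ : ℝ) ≤ n := by exact_mod_cast (by omega : n₄ ≤ n)
    have h2 := hn₄.trans h1
    rw [div_le_iff₀ hε] at h2
    linarith
  obtain ⟨G, hG, hGd⟩ := hn₁ n (by omega) d hd1 (by
    have : (δ + t) * n = δ * n + t * n := by ring
    rw [this]
    linarith)
  obtain ⟨K, hK⟩ : ∃ K : ℝ, K = 1 + Real.exp (-((κ * (δ₁ - (δ + t)) - t) * n)) := ⟨_, rfl⟩
  obtain ⟨L, hL⟩ : ∃ L : ℝ, L = Real.exp (n * (max (Real.log 2 - x₁ + κ * (δ + t) + t) (c / 2))) :=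
    ⟨_, rfl⟩
  have hG' : Good G K L := by
    refine hG.mono (le_of_eq hK.symm) ?_
    rw [hL]
    exact Real.exp_le_exp.2 (mul_le_mul_of_nonneg_left (le_max_left _ _) hnp)
  have hK1 : 1 ≤ K := by
    rw [hK]
    have := Real.exp_pos (-((κ * (δ₁ - (δ + t)) - t) * n))
    linarith
  have hk0 : (0 : ℝ) ≤ k := Nat.cast_nonneg k
  have hKk : K ^ (4 * k) ≤ 2 := by
    have e1 : K ≤ Real.exp (Real.exp (-((κ * (δ₁ - (δ + t)) - t) * n))) := by
      have := Real.add_one_le_exp (Real.exp (-((κ * (δ₁ - (δ + t)) - t) * n)))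
      rw [hK]
      linarith
    have e2 : K ^ (4 * k) ≤ Real.exp (Real.exp (-((κ * (δ₁ - (δ + t)) - t) * n))) ^ (4 * k) :=
      pow_le_pow_left₀ (by linarith) e1 _
    rw [← Real.exp_nat_mul] at e2
    have e3 : ((4 * k : ℕ) : ℝ) * Real.exp (-((κ * (δ₁ - (δ + t)) - t) * n)) ≤ 1 / 2 := by
      push_cast
      have e4 : Real.exp (-((κ * (δ₁ - (δ + t)) - t) * n)) ≤ Real.exp (-((c + t) * n)) := by
        refine Real.exp_le_exp.2 (neg_le_neg ?_)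
        exact mul_le_mul_of_nonneg_right (by linarith) hnp
      have e5 : 4 * (k : ℝ) * Real.exp (-((κ * (δ₁ - (δ + t)) - t) * n)) ≤
          4 * Real.exp (n * c) * Real.exp (-((c + t) * n)) :=
        mul_le_mul (by linarith) e4 (Real.exp_pos _).le (by positivity)
      have e6 : Real.exp (n * c) * Real.exp (-((c + t) * n)) = Real.exp (-(t * n)) := by
        rw [← Real.exp_add]
        congr 1
        ring
      have e7 : Real.exp (-(t * n)) ≤ 1 / 8 := by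
        rw [Real.exp_neg, one_div]
        refine inv_anti₀ (by norm_num) ?_
        have := Real.add_one_le_exp (t * n)
        linarith
      calc 4 * (k : ℝ) * Real.exp (-((κ * (δ₁ - (δ + t)) - t) * n)) ≤
            4 * (Real.exp (n * c) * Real.exp (-((c + t) * n))) := by
            rw [← mul_assoc]
            exact e5
        _ ≤ 4 * (1 / 8) := by
            rw [e6]
            exact mul_le_mul_of_nonneg_left e7 (by norm_num)
        _ = 1 / 2 := by norm_num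
    have e4 : Real.exp (1 / 2) ≤ 2 := by
      have h1 := Real.exp_one_lt_d9
      have h2 : Real.exp (1 / 2) ^ 2 = Real.exp 1 := by
        rw [← Real.exp_nat_mul]
        congr 1
        norm_num
      by_contra hcon
      push Not at hcon
      have h3 : (2 : ℝ) ^ 2 < Real.exp (1 / 2) ^ 2 := pow_lt_pow_left₀ hcon (by norm_num) (by norm_num)
      rw [h2] at h3
      norm_num at h3
      linarith
    exact e2.trans ((Real.exp_le_exp.2 e3).trans e4)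
  have hkL : (k : ℝ) ≤ L ^ 2 := by
    refine hkn.trans ?_
    rw [hL, ← Real.exp_nat_mul]
    refine Real.exp_le_exp.2 ?_
    push_cast
    have := mul_le_mul_of_nonneg_left (le_max_right (Real.log 2 - x₁ + κ * (δ + t) + t) (c / 2)) hnp
    linarith
  have hv := value_le hk hG' hGd hK1 hKk hkL hw
  have hw0 : 0 ≤ ∑ u, w u := Finset.sum_nonneg fun u _ => hw u
  have hL0 : 0 < L := by rw [hL]; exact Real.exp_pos _
  have hk1 : (1 : ℝ) ≤ k := by exact_mod_cast hk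
  have hsk0 : 0 < √(k : ℝ) := Real.sqrt_pos.2 (by linarith)
  have hsk : √(k : ℝ) ≤ Real.exp (n * (c / 2)) := by
    rw [Real.sqrt_le_left (Real.exp_pos _).le, ← Real.exp_nat_mul]
    refine hkn.trans (le_of_eq ?_)
    congr 1
    push_cast
    ring
  have hexp : Real.exp (n * (min (x₁ - c * (δ / (δ₀ - δ) + 1 / 2)) (Real.log 2 - c) - ε)) ≤
      2 ^ n * (64 * √k * L)⁻¹ := by
    have h2 : (2 : ℝ) ^ n = Real.exp (n * Real.log 2) := by
      rw [Real.exp_nat_mul, Real.exp_log two_pos]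
    have h64 : (64 : ℝ) ≤ Real.exp (n * (ε / 4)) := by
      have := Real.add_one_le_exp (n * (ε / 4))
      linarith
    have h3 : 64 * √k * L ≤ Real.exp (n * (ε / 4)) * Real.exp (n * (c / 2)) * L :=
      mul_le_mul_of_nonneg_right (mul_le_mul h64 hsk hsk0.le (Real.exp_pos _).le) hL0.le
    rw [h2, ← div_eq_mul_inv, le_div_iff₀ (by positivity)]
    refine (mul_le_mul_of_nonneg_left h3 (Real.exp_pos _).le).trans ?_
    rw [hL, ← Real.exp_add, ← Real.exp_add, ← Real.exp_add]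
    refine Real.exp_le_exp.2 ?_
    have e1 : (n : ℝ) * (min (x₁ - c * (δ / (δ₀ - δ) + 1 / 2)) (Real.log 2 - c) - ε) +
        (n * (ε / 4) + n * (c / 2) +
          n * max (Real.log 2 - x₁ + κ * (δ + t) + t) (c / 2)) =
        n * (min (x₁ - c * (δ / (δ₀ - δ) + 1 / 2)) (Real.log 2 - c) - ε + ε / 4 + c / 2 +
          max (Real.log 2 - x₁ + κ * (δ + t) + t) (c / 2)) := by ring
    rw [e1]
    refine mul_le_mul_of_nonneg_left ?_ hnp
    rcases le_total (Real.log 2 - x₁ + κ * (δ + t) + t) (c / 2) with h4 | h4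
    · rw [max_eq_right h4]
      have h5 := min_le_right (x₁ - c * (δ / (δ₀ - δ) + 1 / 2)) (Real.log 2 - c)
      linarith
    · rw [max_eq_left h4]
      have h5 := min_le_left (x₁ - c * (δ / (δ₀ - δ) + 1 / 2)) (Real.log 2 - c)
      have h6 : c * (δ / (δ₀ - δ) + 1 / 2) = c * (δ / (δ₀ - δ)) + c / 2 := by ring
      rw [h6] at h5 ⊢
      linarith
  calc Real.exp (n * (min (x₁ - c * (δ / (δ₀ - δ) + 1 / 2)) (Real.log 2 - c) - ε)) * ∑ u, w u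
      ≤ 2 ^ n * (64 * √k * L)⁻¹ * ∑ u, w u := mul_le_mul_of_nonneg_right hexp hw0
    _ = 2 ^ n * ((64 * √k * L)⁻¹ * ∑ u, w u) := by ring
    _ ≤ 2 ^ n * SW n d k w := mul_le_mul_of_nonneg_left hv (by positivity)

/-- small exponential levels do not improve the exponent -/
theorem lowA {δ x : ℝ} (h : Nx δ x) (hδ : 0 < δ) (ε : ℝ) (hε : 0 < ε) :
    ∃ c : ℝ, 0 < c ∧ ∃ n₀ : ℕ, ∀ n : ℕ, n₀ ≤ n → ∀ k : ℕ, 1 ≤ k → (k : ℝ) ≤ Real.exp (n * c) →
      ∀ d : ℕ, 1 ≤ d → (d : ℝ) ≤ δ * n + 1 →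
      ∀ w : (Fin n → Bool) → ℝ, (∀ u, 0 ≤ w u) →
      Real.exp (n * (x - ε)) * ∑ u, w u ≤ 2 ^ n * SW n d k w := by
  obtain ⟨δ₁, x₁, h1, h2, h3⟩ := h (ε / 4) (by linarith)
  have hx₁ := nd_le (hδ.trans h1) h3
  have hdd : 0 < δ₁ - δ := by linarith
  have hq : 0 < δ / (δ₁ - δ) + 1 := by positivity
  obtain ⟨c, hc⟩ : ∃ c : ℝ, c = ε / 4 / (δ / (δ₁ - δ) + 1) := ⟨_, rfl⟩
  have hc0 : 0 < c := by rw [hc]; positivity
  have hc1 : c * (δ / (δ₁ - δ) + 1) = ε / 4 := by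
    rw [hc, div_mul_cancel₀ _ hq.ne']
  have hc2 : c ≤ ε / 4 := by
    have : 0 ≤ c * (δ / (δ₁ - δ)) := by positivity
    linarith
  obtain ⟨n₀, hn₀⟩ := gen h3 hδ.le h1 le_rfl hc0 (ε / 4) (by linarith)
  refine ⟨c, hc0, n₀, fun n hn k hk hkn d hd1 hd w hw => ?_⟩
  refine le_trans (mul_le_mul_of_nonneg_right ?_ (Finset.sum_nonneg fun u _ => hw u))
    (hn₀ n hn k hk hkn d hd1 hd w hw)
  refine Real.exp_le_exp.2 (mul_le_mul_of_nonneg_left ?_ (Nat.cast_nonneg n))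
  have h4 : x - ε / 4 * 3 ≤ min (x₁ - c * (δ / (δ₁ - δ) + 1 / 2)) (Real.log 2 - c) := by
    refine le_min ?_ ?_
    · have : c * (δ / (δ₁ - δ) + 1 / 2) = c * (δ / (δ₁ - δ) + 1) - c / 2 := by ring
      rw [this, hc1]
      linarith
    · linarith
  linarith

/-- the trade-off -/
theorem lowB {δ₀ x₀ δ c : ℝ} (h : Nx δ₀ x₀) (hδ : 0 ≤ δ) (hδ₀ : δ < δ₀)
    (hc : 0 < c) (ε : ℝ) (hε : 0 < ε) :
    ∃ n₀ : ℕ, ∀ n : ℕ, n₀ ≤ n → ∀ k : ℕ, 1 ≤ k → (k : ℝ) ≤ Real.exp (n * c) →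
      ∀ d : ℕ, 1 ≤ d → (d : ℝ) ≤ δ * n + 1 →
      ∀ w : (Fin n → Bool) → ℝ, (∀ u, 0 ≤ w u) →
      Real.exp (n * (min (x₀ - c * (δ / (δ₀ - δ) + 1 / 2)) (Real.log 2 - c) - ε)) * ∑ u, w u ≤
        2 ^ n * SW n d k w := by
  obtain ⟨δ₁, x₁, h1, h2, h3⟩ := h (ε / 2) (by linarith)
  obtain ⟨n₀, hn₀⟩ := gen h3 hδ hδ₀ h1.le hc (ε / 2) (by linarith)
  refine ⟨n₀, fun n hn k hk hkn d hd1 hd w hw => ?_⟩
  refine le_trans (mul_le_mul_of_nonneg_right ?_ (Finset.sum_nonneg fun u _ => hw u))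
    (hn₀ n hn k hk hkn d hd1 hd w hw)
  refine Real.exp_le_exp.2 (mul_le_mul_of_nonneg_left ?_ (Nat.cast_nonneg n))
  have h4 : min (x₀ - c * (δ / (δ₀ - δ) + 1 / 2)) (Real.log 2 - c) - ε / 2 ≤
      min (x₁ - c * (δ / (δ₀ - δ) + 1 / 2)) (Real.log 2 - c) := by
    refine le_min ?_ ?_
    · have := min_le_left (x₀ - c * (δ / (δ₀ - δ) + 1 / 2)) (Real.log 2 - c)
      linarith
    · have := min_le_right (x₀ - c * (δ / (δ₀ - δ) + 1 / 2)) (Real.log 2 - c)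
      linarith
  linarith

end Pool.Agent.Helper15K9.Lw
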