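import Pool.Agent.Y570.KP.Complete

/-!
Helper15K9 (MP_0430e4_lc): averages of pseudo-codes and Schrijver's three-point program.
-/

set_option autoImplicit false
set_option linter.unusedSectionVars false

namespace Pool.Agent.Helper15K9.Sch

open Finset Pool.Agent.TH41.BL Pool.Agent.Y570.KP

variable {n d k : ℕ}

lemma cond_avg {ι : Type} [Fintype ι] (Y : ι → Finset (Fin n → Bool) → ℝ) (c : ℝ)
    (D E S : Finset (Fin n → Bool)) :
    cond (fun S => c * ∑ i, Y i S) D E S = c * ∑ i, cond (Y i) D E S := by
  unfold Pool.Agent.Y570.KP.cond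
  rw [Finset.sum_comm, Finset.mul_sum]
  refine Finset.sum_congr rfl fun F _ => ?_
  rw [← Finset.mul_sum]
  ring

/-- averages of pseudo-codes -/
lemma pc_avg {ι : Type} [Fintype ι] [Nonempty ι] (Y : ι → Finset (Fin n → Bool) → ℝ)
    (h : ∀ i, PC n d k (Y i)) : PC n d k (fun S => (Fintype.card ι : ℝ)⁻¹ * ∑ i, Y i S) := by
  have hc : (0 : ℝ) < Fintype.card ι := by exact_mod_cast Fintype.card_pos
  refine ⟨?_, ?_, ?_, ?_⟩
  · simp only [(h _).one, Finset.sum_const, Finset.card_univ, nsmul_eq_mul, mul_one]
    exact inv_mul_cancel₀ hc.ne'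
  · intro S u hu v hv huv hlt
    simp only [(h _).dist S u hu v hv huv hlt, Finset.sum_const_zero, mul_zero]
  · intro D E hDE
    rw [cond_avg]
    exact mul_nonneg (inv_nonneg.2 hc.le) (Finset.sum_nonneg fun i _ => (h i).nonneg D E hDE)
  · intro D E hDE a
    have e1 : ∑ s, ∑ t, a s * a t *
        cond (fun S => (Fintype.card ι : ℝ)⁻¹ * ∑ i, Y i S) D E (s.toFinset ∪ t.toFinset) =
        (Fintype.card ι : ℝ)⁻¹ * ∑ i, ∑ s, ∑ t, a s * a t *
          cond (Y i) D E (s.toFinset ∪ t.toFinset) := by
      simp_rw [cond_avg]
      have e2 : ∀ s t : Option (Fin n → Bool), a s * a t * ((Fintype.card ι : ℝ)⁻¹ *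
          ∑ i, cond (Y i) D E (s.toFinset ∪ t.toFinset)) =
          ∑ i, (Fintype.card ι : ℝ)⁻¹ * (a s * a t *
            cond (Y i) D E (s.toFinset ∪ t.toFinset)) := by
        intro s t
        rw [Finset.mul_sum, Finset.mul_sum]
        exact Finset.sum_congr rfl fun i _ => by ring
      simp_rw [e2]
      rw [Finset.mul_sum]
      rw [Finset.sum_congr rfl fun s _ => Finset.sum_comm]
      rw [Finset.sum_comm]
      refine Finset.sum_congr rfl fun i _ => ?_
      rw [Finset.mul_sum]
      refine Finset.sum_congr rfl fun s _ => ?_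
      rw [Finset.mul_sum]
    rw [e1]
    exact mul_nonneg (inv_nonneg.2 hc.le) (Finset.sum_nonneg fun i _ => (h i).psd D E hDE a)

/-- the permutation of the coordinates -/
def pm (π : Equiv.Perm (Fin n)) : Equiv.Perm (Fin n → Bool) where
  toFun x := fun i => x (π i)
  invFun x := fun i => x (π.symm i)
  left_inv x := by ext i; simp
  right_inv x := by ext i; simp

lemma pm_apply (π : Equiv.Perm (Fin n)) (x : Fin n → Bool) (i : Fin n) : pm π x i = x (π i) := rfl

lemma tr_apply (u x : Fin n → Bool) (i : Fin n) : tr' u x i = xor (x i) (u i) := rfl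

lemma pm_dist (π : Equiv.Perm (Fin n)) (x z : Fin n → Bool) :
    hammingDist (pm π x) (pm π z) = hammingDist x z := by
  unfold hammingDist
  refine Finset.card_bij' (fun i _ => π i) (fun i _ => π.symm i) ?_ ?_ ?_ ?_
  · intro i hi
    simpa [pm_apply] using hi
  · intro i hi
    simpa [pm_apply] using hi
  · intro i _
    simp
  · intro i _
    simp

/-- the automorphisms of the cube -/
def iso (g : Equiv.Perm (Fin n) × (Fin n → Bool)) : Equiv.Perm (Fin n → Bool) :=
  (pm g.1).trans (tr' g.2)

lemma iso_apply (g : Equiv.Perm (Fin n) × (Fin n → Bool)) (x : Fin n → Bool) (i : Fin n) :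
    iso g x i = xor (x (g.1 i)) (g.2 i) := rfl

lemma iso_dist (g : Equiv.Perm (Fin n) × (Fin n → Bool)) (x z : Fin n → Bool) :
    hammingDist (iso g x) (iso g z) = hammingDist x z := by
  change hammingDist (tr' g.2 (pm g.1 x)) (tr' g.2 (pm g.1 z)) = _
  rw [tr'_dist, pm_dist]

/-- the average over the automorphisms -/
noncomputable def av (y : Finset (Fin n → Bool) → ℝ) (S : Finset (Fin n → Bool)) : ℝ :=
  (Fintype.card (Equiv.Perm (Fin n) × (Fin n → Bool)) : ℝ)⁻¹ *
    ∑ g : Equiv.Perm (Fin n) × (Fin n → Bool), y (S.map (iso g).toEmbedding)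

lemma av_pc {y : Finset (Fin n → Bool) → ℝ} (h : PC n d k y) : PC n d k (av y) :=
  pc_avg (fun g S => y (S.map (iso g).toEmbedding)) fun g => h.map (iso g) (iso_dist g)

lemma map_comp (σ τ : Equiv.Perm (Fin n → Bool)) (S : Finset (Fin n → Bool)) :
    (S.map σ.toEmbedding).map τ.toEmbedding = S.map (σ.trans τ).toEmbedding := by
  rw [Finset.map_map]
  rfl

lemma av_tr (y : Finset (Fin n → Bool) → ℝ) (u : Fin n → Bool) (S : Finset (Fin n → Bool)) :
    av y (S.map (tr' u).toEmbedding) = av y S := by
  unfold av
  congr 1
  refine Fintype.sum_bijective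
    (fun g : Equiv.Perm (Fin n) × (Fin n → Bool) => (g.1, fun i => xor (u (g.1 i)) (g.2 i)))
    ?_ _ _ fun g => ?_
  · refine Function.Involutive.bijective fun g => ?_
    refine Prod.ext rfl ?_
    funext i
    simp
  · rw [map_comp]
    congr 2
    ext x i
    simp only [Equiv.coe_toEmbedding, Equiv.trans_apply, iso_apply, tr_apply]
    cases x (g.1 i) <;> cases u (g.1 i) <;> cases g.2 i <;> rfl

lemma av_pm (y : Finset (Fin n → Bool) → ℝ) (π : Equiv.Perm (Fin n))
    (S : Finset (Fin n → Bool)) : av y (S.map (pm π).toEmbedding) = av y S := by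
  unfold av
  congr 1
  refine Fintype.sum_bijective
    (fun g : Equiv.Perm (Fin n) × (Fin n → Bool) => (g.1.trans π, g.2)) ?_ _ _ fun g => ?_
  · refine Function.bijective_iff_has_inverse.2 ⟨fun g => (g.1.trans π.symm, g.2), ?_, ?_⟩
    · intro g
      refine Prod.ext ?_ rfl
      ext i
      simp
    · intro g
      refine Prod.ext ?_ rfl
      ext i
      simp
  · rw [map_comp]
    congr 2

lemma av_sum (y : Finset (Fin n → Bool) → ℝ) : ∑ x, av y {x} = ∑ x, y {x} := by
  unfold av
  rw [← Finset.mul_sum, Finset.sum_comm]
  have h1 : ∀ g : Equiv.Perm (Fin n) × (Fin n → Bool),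
      ∑ x, y (({x} : Finset (Fin n → Bool)).map (iso g).toEmbedding) = ∑ x, y {x} := by
    intro g
    simp only [Finset.map_singleton, Equiv.coe_toEmbedding]
    exact Equiv.sum_comp (iso g) fun x => y {x}
  simp_rw [h1]
  rw [Finset.sum_const, Finset.card_univ, nsmul_eq_mul, ← mul_assoc,
    inv_mul_cancel₀ (by exact_mod_cast (Fintype.card_pos).ne'), one_mul]

/-- two pairs of words with the same weights and distance differ by a permutation -/
lemma exists_perm (u v u' v' : Fin n → Bool)
    (h1 : hammingDist u (fun _ => false) = hammingDist u' (fun _ => false))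
    (h2 : hammingDist v (fun _ => false) = hammingDist v' (fun _ => false))
    (h3 : hammingDist u v = hammingDist u' v') :
    ∃ π : Equiv.Perm (Fin n), pm π u' = u ∧ pm π v' = v := by
  -- the numbers of the coordinates of the four types
  have key : ∀ x z : Fin n → Bool,
      ((hammingDist x fun _ => false) = (univ.filter fun i => x i = true ∧ z i = true).card +
        (univ.filter fun i => x i = true ∧ z i = false).card) ∧
      ((hammingDist z fun _ => false) = (univ.filter fun i => x i = true ∧ z i = true).card +
        (univ.filter fun i => x i = false ∧ z i = true).card) ∧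
      (hammingDist x z = (univ.filter fun i => x i = true ∧ z i = false).card +
        (univ.filter fun i => x i = false ∧ z i = true).card) ∧
      (n = (univ.filter fun i => x i = true ∧ z i = true).card +
        (univ.filter fun i => x i = true ∧ z i = false).card +
        (univ.filter fun i => x i = false ∧ z i = true).card +
        (univ.filter fun i => x i = false ∧ z i = false).card) := by
    intro x z
    refine ⟨?_, ?_, ?_, ?_⟩
    · unfold hammingDist
      rw [← Finset.card_union_of_disjoint]
      · congr 1
        ext i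
        simp only [mem_filter, mem_univ, true_and, mem_union]
        cases x i <;> cases z i <;> simp
      · rw [Finset.disjoint_left]
        intro i hi hi'
        simp only [mem_filter, mem_univ, true_and] at hi hi'
        rw [hi.2] at hi'
        simp at hi'
    · unfold hammingDist
      rw [← Finset.card_union_of_disjoint]
      · congr 1
        ext i
        simp only [mem_filter, mem_univ, true_and, mem_union]
        cases x i <;> cases z i <;> simp
      · rw [Finset.disjoint_left]
        intro i hi hi'
        simp only [mem_filter, mem_univ, true_and] at hi hi'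
        rw [hi.1] at hi'
        simp at hi'
    · unfold hammingDist
      rw [← Finset.card_union_of_disjoint]
      · congr 1
        ext i
        simp only [mem_filter, mem_univ, true_and, mem_union]
        cases x i <;> cases z i <;> simp
      · rw [Finset.disjoint_left]
        intro i hi hi'
        simp only [mem_filter, mem_univ, true_and] at hi hi'
        rw [hi.1] at hi'
        simp at hi'
    · have e1 : (univ : Finset (Fin n)).card = n := by simp
      conv_lhs => rw [← e1]
      rw [← Finset.card_union_of_disjoint, ← Finset.card_union_of_disjoint,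
        ← Finset.card_union_of_disjoint]
      · congr 1
        ext i
        simp only [mem_filter, mem_univ, true_and, mem_union]
        cases x i <;> cases z i <;> simp
      · rw [Finset.disjoint_left]
        intro i hi hi'
        simp only [mem_filter, mem_univ, true_and, mem_union] at hi hi'
        rw [hi'.1, hi'.2] at hi
        simp at hi
      · rw [Finset.disjoint_left]
        intro i hi hi'
        simp only [mem_filter, mem_univ, true_and, mem_union] at hi hi'
        rw [hi'.1, hi'.2] at hi
        simp at hi
      · rw [Finset.disjoint_left]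
        intro i hi hi'
        simp only [mem_filter, mem_univ, true_and, mem_union] at hi hi'
        rw [hi'.1, hi'.2] at hi
        simp at hi
  have hcard : ∀ p : Bool × Bool, (univ.filter fun i => (u i, v i) = p).card =
      (univ.filter fun i => (u' i, v' i) = p).card := by
    rintro ⟨b, c⟩
    obtain ⟨a1, a2, a3, a4⟩ := key u v
    obtain ⟨b1, b2, b3, b4⟩ := key u' v'
    rw [← h1] at b1
    rw [← h2] at b2
    rw [← h3] at b3
    have e3 : ∀ x z : Fin n → Bool, (univ.filter fun i => (x i, z i) = (b, c)) =
        univ.filter fun i => x i = b ∧ z i = c := by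
      intro x z
      ext i
      simp
    rw [e3, e3]
    cases b <;> cases c <;> omega
  have hfib : ∀ p : Bool × Bool, Nonempty ({i : Fin n // (u i, v i) = p} ≃
      {i : Fin n // (u' i, v' i) = p}) := by
    intro p
    refine ⟨Fintype.equivOfCardEq ?_⟩
    rw [Fintype.card_subtype, Fintype.card_subtype]
    exact hcard p
  have hfib' : ∀ p : Bool × Bool, {i : Fin n // (fun i => (u i, v i)) i = p} ≃
      {i : Fin n // (fun i => (u' i, v' i)) i = p} := fun p => (hfib p).some
  obtain ⟨π, hπ⟩ : ∃ π : Equiv.Perm (Fin n), ∀ i, (u' (π i), v' (π i)) = (u i, v i) :=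
    ⟨Equiv.ofFiberEquiv hfib', fun i => Equiv.ofFiberEquiv_map hfib' i⟩
  refine ⟨π, ?_, ?_⟩
  · funext i
    exact (Prod.ext_iff.1 (hπ i)).1
  · funext i
    exact (Prod.ext_iff.1 (hπ i)).2

end Pool.Agent.Helper15K9.Sch
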