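import Pool.Agent.Helper15K9.Sch

/-!
Helper15K9 (MP_0430e4_lc): Schrijver's three-point program is between the levels two and three.
-/

set_option autoImplicit false
set_option linter.unusedSectionVars false

namespace Pool.Agent.Helper15K9.Sch

open Finset Pool.Agent.TH41.BL Pool.Agent.Y570.KP

variable {n d k : ℕ}

/-- the zero word -/
def zw (n : ℕ) : Fin n → Bool := fun _ => false

/-- the sum of two words -/
def add (u v : Fin n → Bool) : Fin n → Bool := fun i => xor (u i) (v i)

lemma add_self (u : Fin n → Bool) : add u u = zw n := by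
  funext i
  simp [add, zw]

lemma add_zw (u : Fin n → Bool) : add u (zw n) = u := by
  funext i
  simp [add, zw]

lemma zw_add (u : Fin n → Bool) : add (zw n) u = u := by
  funext i
  simp [add, zw]

lemma add_comm' (u v : Fin n → Bool) : add u v = add v u := by
  funext i
  simp [add, Bool.xor_comm]

lemma tr_eq (u x : Fin n → Bool) : tr' u x = add x u := rfl

lemma add_add (u v : Fin n → Bool) : add (add u v) u = v := by
  funext i
  simp only [add]
  cases u i <;> cases v i <;> rfl

lemma dist_add (u v : Fin n → Bool) : hammingDist (add u v) (zw n) = hammingDist u v := by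
  unfold hammingDist
  congr 1
  ext i
  simp only [add, zw, mem_filter, mem_univ, true_and]
  cases u i <;> cases v i <;> simp

/-- Schrijver's program -/
structure SP (n d : ℕ) (x : (Fin n → Bool) → (Fin n → Bool) → ℝ) : Prop where
  one : x (zw n) (zw n) = 1
  inv : ∀ u v u' v', hammingDist u (zw n) = hammingDist u' (zw n) →
    hammingDist v (zw n) = hammingDist v' (zw n) → hammingDist u v = hammingDist u' v' →
    x u v = x u' v'
  symm : ∀ u v, x u v = x v u
  shift : ∀ u v, x u v = x u (add u v)
  dist : ∀ u v, u ≠ zw n → hammingDist u (zw n) < d → x u v = 0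
  nonneg : ∀ u v, 0 ≤ x u v
  le : ∀ u v, x u v ≤ x u (zw n)
  ge : ∀ u v, x u (zw n) + x v (zw n) ≤ 1 + x u v
  psd1 : ∀ a : (Fin n → Bool) → ℝ, 0 ≤ ∑ u, ∑ v, a u * a v * x u v
  psd2 : ∀ a : (Fin n → Bool) → ℝ, 0 ≤ ∑ u, ∑ v, a u * a v * (x (add u v) (zw n) - x u v)

lemma SP.le_one {x : (Fin n → Bool) → (Fin n → Bool) → ℝ} (h : SP n d x) (u : Fin n → Bool) :
    x u (zw n) ≤ 1 := by
  have h1 := h.le (zw n) u
  rwa [h.symm, h.one] at h1

lemma SP.bdd (n d : ℕ) : BddAbove {v : ℝ | ∃ x, SP n d x ∧ v = ∑ u, x u (zw n)} := by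
  refine ⟨∑ _u : Fin n → Bool, 1, ?_⟩
  rintro v ⟨x, hx, rfl⟩
  exact Finset.sum_le_sum fun u _ => hx.le_one u

/-- the code with one word -/
lemma SP.triv (n d : ℕ) : SP n d (fun u v => if u = zw n ∧ v = zw n then 1 else 0) := by
  have h0 : ∀ u : Fin n → Bool, hammingDist u (zw n) = 0 ↔ u = zw n := fun u =>
    hammingDist_eq_zero
  refine ⟨by simp, ?_, ?_, ?_, ?_, ?_, ?_, ?_, ?_, ?_⟩
  · intro u v u' v' h1 h2 _
    have e1 : u = zw n ↔ u' = zw n := by rw [← h0, ← h0, h1]
    have e2 : v = zw n ↔ v' = zw n := by rw [← h0, ← h0, h2]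
    simp only [e1, e2]
  · intro u v
    simp only [and_comm]
  · intro u v
    by_cases hu : u = zw n
    · subst hu
      rw [zw_add]
    · simp [hu]
  · intro u v hu _
    simp [hu]
  · intro u v
    split_ifs <;> norm_num
  · intro u v
    by_cases hu : u = zw n
    · by_cases hv : v = zw n <;> simp [hu, hv]
    · simp [hu]
  · intro u v
    by_cases hu : u = zw n
    · by_cases hv : v = zw n <;> simp [hu, hv]
    · by_cases hv : v = zw n <;> simp [hu, hv]
  · intro a
    have e1 : ∑ u, ∑ v, a u * a v * (if u = zw n ∧ v = zw n then (1 : ℝ) else 0) =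
        a (zw n) * a (zw n) := by
      rw [Finset.sum_eq_single (zw n)]
      · rw [Finset.sum_eq_single (zw n)]
        · simp
        · intro v _ hv
          simp [hv]
        · simp
      · intro u _ hu
        simp [hu]
      · simp
    rw [e1]
    exact mul_self_nonneg _
  · intro a
    have e1 : ∀ u v : Fin n → Bool, a u * a v * ((if add u v = zw n ∧ zw n = zw n then (1 : ℝ)
        else 0) - if u = zw n ∧ v = zw n then 1 else 0) =
        if u = v then (if u = zw n then 0 else a u * a u) else 0 := by
      intro u v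
      have e2 : add u v = zw n ↔ u = v := by
        constructor
        · intro h
          have := add_add u v
          rw [h, zw_add] at this
          exact this
        · rintro rfl
          exact add_self u
      simp only [e2, and_true]
      by_cases huv : u = v
      · subst huv
        by_cases hu : u = zw n <;> simp [hu]
      · rw [if_neg huv, if_neg huv, if_neg, sub_zero, mul_zero]
        rintro ⟨rfl, rfl⟩
        exact huv rfl
    refine Finset.sum_nonneg fun u _ => Finset.sum_nonneg fun v _ => ?_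
    refine le_of_le_of_eq ?_ (e1 u v).symm
    split_ifs
    · exact le_rfl
    · exact mul_self_nonneg _
    · exact le_rfl

/-- the optimum of Schrijver's program -/
noncomputable def SB (n d : ℕ) : ℝ := sSup {v : ℝ | ∃ x, SP n d x ∧ v = ∑ u, x u (zw n)}

lemma one_le_SB (n d : ℕ) : 1 ≤ SB n d := by
  refine le_csSup (SP.bdd n d) ⟨_, SP.triv n d, ?_⟩
  rw [Finset.sum_eq_single (zw n)]
  · simp
  · intro u _ hu
    simp [hu]
  · simp

section

variable {y : Finset (Fin n → Bool) → ℝ}

/-- the solution of Schrijver's program -/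
noncomputable def xs (y : Finset (Fin n → Bool) → ℝ) (u v : Fin n → Bool) : ℝ :=
  y ({zw n} ∪ ({u} ∪ {v})) / y {zw n}

lemma map3 (σ : Equiv.Perm (Fin n → Bool)) (a b c : Fin n → Bool) :
    (({a} ∪ ({b} ∪ {c})) : Finset (Fin n → Bool)).map σ.toEmbedding =
      {σ a} ∪ ({σ b} ∪ {σ c}) := by
  simp [Finset.map_union]

lemma xs_sp (h : PC n d 3 y)
    (ht : ∀ (u : Fin n → Bool) (S : Finset (Fin n → Bool)), y (S.map (tr' u).toEmbedding) = y S)
    (hp : ∀ (π : Equiv.Perm (Fin n)) (S : Finset (Fin n → Bool)),
      y (S.map (pm π).toEmbedding) = y S) (h0 : 0 < y {zw n}) : SP n d (xs y) := by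
  have hc3 : ∀ a b c : Fin n → Bool, (({a} ∪ ({b} ∪ {c})) : Finset (Fin n → Bool)).card ≤ 3 := by
    intro a b c
    refine (Finset.card_union_le _ _).trans ?_
    have := Finset.card_union_le ({b} : Finset (Fin n → Bool)) {c}
    simp only [Finset.card_singleton] at this ⊢
    omega
  have hnn : ∀ a b c : Fin n → Bool, 0 ≤ y ({a} ∪ ({b} ∪ {c})) := by
    intro a b c
    have h1 := h.nonneg ({a} ∪ ({b} ∪ {c})) ∅ (by simpa using hc3 a b c)
    rwa [cond_empty, Finset.union_empty] at h1
  have hsymm : ∀ u v, xs y u v = xs y v u := by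
    intro u v
    unfold xs
    rw [Finset.union_comm {u} {v}]
  have hone : ∀ v, xs y (zw n) v = y ({zw n} ∪ {v}) / y {zw n} := by
    intro v
    unfold xs
    rw [← Finset.union_assoc, Finset.union_self]
  have hle : ∀ u v, xs y u v ≤ xs y u (zw n) := by
    intro u v
    rw [hsymm u (zw n), hone]
    unfold xs
    refine div_le_div_of_nonneg_right ?_ h0.le
    have h1 := h.nonneg ({zw n} ∪ {u}) {v} (by
      have := Finset.card_union_le ({zw n} : Finset (Fin n → Bool)) {u}
      simp only [Finset.card_singleton] at this ⊢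
      omega)
    unfold Pool.Agent.Y570.KP.cond at h1
    have hps : ({v} : Finset (Fin n → Bool)).powerset = {∅, {v}} := by
      ext F
      simp only [Finset.mem_powerset, Finset.mem_insert, Finset.mem_singleton]
      exact Finset.subset_singleton_iff
    rw [hps, Finset.sum_pair (Finset.singleton_ne_empty v).symm] at h1
    simp only [Finset.card_empty, pow_zero, one_mul, Finset.union_empty,
      Finset.card_singleton, pow_one, neg_mul] at h1
    rw [Finset.union_assoc] at h1
    linarith
  refine ⟨?_, ?_, hsymm, ?_, ?_, ?_, hle, ?_, ?_, ?_⟩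
  · unfold xs
    rw [Finset.union_self, Finset.union_self, div_self h0.ne']
  · intro u v u' v' h1 h2 h3
    obtain ⟨π, hπ1, hπ2⟩ := exists_perm u v u' v' h1 h2 h3
    unfold xs
    have h4 := hp π ({zw n} ∪ ({u'} ∪ {v'}))
    rw [map3, hπ1, hπ2] at h4
    have h5 : pm π (zw n) = zw n := rfl
    rw [h5] at h4
    rw [h4]
  · intro u v
    unfold xs
    have h4 := ht u ({zw n} ∪ ({u} ∪ {v}))
    rw [map3, tr_eq, tr_eq, tr_eq, zw_add, add_self, add_comm' v u] at h4
    have h5 : ({u} ∪ ({zw n} ∪ {add u v}) : Finset (Fin n → Bool)) =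
        {zw n} ∪ ({u} ∪ {add u v}) := by
      rw [← Finset.union_assoc, Finset.union_comm {u} {zw n}, Finset.union_assoc]
    rw [h5] at h4
    rw [h4]
  · intro u v hu hlt
    unfold xs
    rw [h.dist _ u (by simp) (zw n) (by simp) hu hlt, zero_div]
  · intro u v
    exact div_nonneg (hnn _ _ _) h0.le
  · intro u v
    by_cases huv : u = v
    · subst huv
      have h1 := hle (zw n) u
      have h2 : xs y (zw n) (zw n) = 1 := by
        unfold xs
        rw [Finset.union_self, Finset.union_self, div_self h0.ne']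
      rw [h2] at h1
      have h3 : xs y u u = xs y u (zw n) := by
        rw [hsymm u (zw n), hone]
        unfold xs
        rw [Finset.union_self]
      rw [h3]
      rw [hsymm (zw n) u] at h1
      linarith
    · rw [hsymm u (zw n), hsymm v (zw n), hone, hone]
      unfold xs
      rw [← add_div]
      have h4 : 1 + y ({zw n} ∪ ({u} ∪ {v})) / y {zw n} =
          (y {zw n} + y ({zw n} ∪ ({u} ∪ {v}))) / y {zw n} := by
        rw [add_div, div_self h0.ne']
      rw [h4]
      refine div_le_div_of_nonneg_right ?_ h0.le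
      have h1 := h.nonneg {zw n} {u, v} (by
        rw [Finset.card_pair huv, Finset.card_singleton])
      unfold Pool.Agent.Y570.KP.cond at h1
      rw [Finset.powerset_insert] at h1
      have hps : ({v} : Finset (Fin n → Bool)).powerset = {∅, {v}} := by
        ext F
        simp only [Finset.mem_powerset, Finset.mem_insert, Finset.mem_singleton]
        exact Finset.subset_singleton_iff
      rw [hps, Finset.image_insert, Finset.image_singleton] at h1
      have e1 : ({∅, {v}} ∪ {insert u ∅, insert u {v}} : Finset (Finset (Fin n → Bool))) =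
          {∅, {v}, {u}, {u, v}} := by
        ext F
        simp only [mem_union, mem_insert, mem_singleton, insert_empty_eq]
        tauto
      rw [e1, Finset.sum_insert, Finset.sum_insert, Finset.sum_pair] at h1
      · simp only [Finset.card_empty, pow_zero, one_mul, Finset.union_empty,
          Finset.card_singleton, pow_one, neg_mul, Finset.card_pair huv] at h1
        have e2 : ({u, v} : Finset (Fin n → Bool)) = {u} ∪ {v} := rfl
        have e3 : (-1 : ℝ) ^ 2 = 1 := by norm_num
        rw [e2, e3] at h1
        linarith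
      · intro h5
        have h6 : v ∈ ({u, v} : Finset (Fin n → Bool)) := by simp
        rw [← h5, Finset.mem_singleton] at h6
        exact huv h6.symm
      · simp only [mem_insert, mem_singleton, not_or]
        refine ⟨fun h5 => huv (Finset.singleton_injective h5).symm, fun h5 => ?_⟩
        have h6 : u ∈ ({u, v} : Finset (Fin n → Bool)) := by simp
        rw [← h5, Finset.mem_singleton] at h6
        exact huv h6
      · simp only [mem_insert, mem_singleton, not_or]
        refine ⟨(Finset.singleton_ne_empty v).symm, (Finset.singleton_ne_empty u).symm, ?_⟩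
        intro h5
        have h6 : u ∈ ({u, v} : Finset (Fin n → Bool)) := by simp
        rw [← h5] at h6
        simp at h6
  · intro a
    have h1 := h.psd {zw n} ∅ (by simp) (fun s => s.elim 0 a)
    simp only [cond_empty, Fintype.sum_option, Option.toFinset_none, Option.toFinset_some,
      Option.elim_none, Option.elim_some, zero_mul, mul_zero, Finset.sum_const_zero,
      zero_add] at h1
    have e1 : ∑ u, ∑ v, a u * a v * xs y u v =
        (y {zw n})⁻¹ * ∑ u, ∑ v, a u * a v * y ({zw n} ∪ ({u} ∪ {v})) := by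
      rw [Finset.mul_sum]
      refine Finset.sum_congr rfl fun u _ => ?_
      rw [Finset.mul_sum]
      refine Finset.sum_congr rfl fun v _ => ?_
      unfold xs
      rw [div_eq_mul_inv]
      ring
    rw [e1]
    exact mul_nonneg (inv_nonneg.2 h0.le) h1
  · intro a
    have h1 := h.psd ∅ {zw n} (by simp) (fun s => s.elim 0 a)
    have hps : ({zw n} : Finset (Fin n → Bool)).powerset = {∅, {zw n}} := by
      ext F
      simp only [Finset.mem_powerset, Finset.mem_insert, Finset.mem_singleton]
      exact Finset.subset_singleton_iff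
    have hcd : ∀ S : Finset (Fin n → Bool), cond y ∅ {zw n} S = y S - y ({zw n} ∪ S) := by
      intro S
      unfold Pool.Agent.Y570.KP.cond
      rw [hps, Finset.sum_pair (Finset.singleton_ne_empty _).symm]
      simp only [Finset.card_empty, pow_zero, one_mul, Finset.union_empty,
        Finset.card_singleton, pow_one, neg_mul, Finset.empty_union]
      ring
    simp only [hcd, Fintype.sum_option, Option.toFinset_none, Option.toFinset_some,
      Option.elim_none, Option.elim_some, zero_mul, mul_zero, Finset.sum_const_zero,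
      zero_add] at h1
    have h2 : ∀ u v : Fin n → Bool, y ({u} ∪ {v}) = y ({zw n} ∪ {add u v}) := by
      intro u v
      have h3 := ht u ({u} ∪ {v})
      rw [Finset.map_union, Finset.map_singleton, Finset.map_singleton] at h3
      rw [← h3]
      have e2 : (tr' u).toEmbedding u = zw n := add_self u
      have e3 : (tr' u).toEmbedding v = add u v := add_comm' v u
      rw [e2, e3]
    have e1 : ∑ u, ∑ v, a u * a v * (xs y (add u v) (zw n) - xs y u v) =
        (y {zw n})⁻¹ * ∑ u, ∑ v, a u * a v * (y ({u} ∪ {v}) - y ({zw n} ∪ ({u} ∪ {v}))) := by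
      rw [Finset.mul_sum]
      refine Finset.sum_congr rfl fun u _ => ?_
      rw [Finset.mul_sum]
      refine Finset.sum_congr rfl fun v _ => ?_
      rw [hsymm (add u v) (zw n), hone, ← h2 u v]
      unfold xs
      rw [div_eq_mul_inv, div_eq_mul_inv]
      ring
    rw [e1]
    exact mul_nonneg (inv_nonneg.2 h0.le) h1

end

/-- level three is at least as strong as Schrijver's program -/
theorem sum_le_SB {y : Finset (Fin n → Bool) → ℝ} (h : PC n d 3 y) : ∑ x, y {x} ≤ SB n d := by
  rw [← av_sum y]
  obtain ⟨z, hz⟩ : ∃ z, z = av y := ⟨_, rfl⟩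
  have hpc : PC n d 3 z := by
    rw [hz]
    exact av_pc h
  have ht : ∀ (u : Fin n → Bool) (S : Finset (Fin n → Bool)),
      z (S.map (tr' u).toEmbedding) = z S := by
    intro u S
    rw [hz]
    exact av_tr y u S
  have hp : ∀ (π : Equiv.Perm (Fin n)) (S : Finset (Fin n → Bool)),
      z (S.map (pm π).toEmbedding) = z S := by
    intro π S
    rw [hz]
    exact av_pm y π S
  rw [← hz]
  have hconst : ∀ x, z {x} = z {zw n} := by
    intro x
    have h1 := ht x {x}
    rw [Finset.map_singleton] at h1
    rw [← h1]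
    congr 2
    exact add_self x
  have hN : ∑ x, z {x} = 2 ^ n * z {zw n} := by
    simp_rw [hconst]
    rw [Finset.sum_const, Finset.card_univ, Fintype.card_fun, Fintype.card_bool,
      Fintype.card_fin, nsmul_eq_mul]
    push_cast
    ring
  have hρ0 : 0 ≤ z {zw n} := (hpc.one_le (by norm_num) (zw n)).1
  rcases hρ0.eq_or_lt with h0 | h0
  · rw [hN, ← h0, mul_zero]
    exact zero_le_one.trans (one_le_SB n d)
  · have hsp := xs_sp hpc ht hp h0
    refine le_trans ?_ (le_csSup (SP.bdd n d) ⟨_, hsp, rfl⟩)
    have h1 := hpc.psd ∅ ∅ (by simp) (fun s => s.elim (-(2 ^ n * z {zw n})) fun _ => 1)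
    simp only [cond_empty, Finset.empty_union, Fintype.sum_option, Option.toFinset_none,
      Option.toFinset_some, Option.elim_none, Option.elim_some, Finset.union_empty,
      hpc.one, mul_one, one_mul] at h1
    have h2 : ∀ u v : Fin n → Bool, z ({u} ∪ {v}) = z ({zw n} ∪ {add u v}) := by
      intro u v
      have h3 := ht u ({u} ∪ {v})
      rw [Finset.map_union, Finset.map_singleton, Finset.map_singleton] at h3
      rw [← h3]
      have e2 : (tr' u).toEmbedding u = zw n := add_self u
      have e3 : (tr' u).toEmbedding v = add u v := add_comm' v u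
      rw [e2, e3]
    have h3 : ∀ u : Fin n → Bool, ∑ v, z ({u} ∪ {v}) = ∑ v, z ({zw n} ∪ {v}) := by
      intro u
      simp_rw [h2 u]
      have : ∀ v : Fin n → Bool, add u v = tr' u v := by
        intro v
        rw [tr_eq, add_comm']
      simp_rw [this]
      exact Equiv.sum_comp (tr' u) fun v => z ({zw n} ∪ {v})
    have h4 : ∑ u : Fin n → Bool, ∑ v, z ({u} ∪ {v}) = 2 ^ n * ∑ v, z ({zw n} ∪ {v}) := by
      simp_rw [h3]
      rw [Finset.sum_const, Finset.card_univ, Fintype.card_fun, Fintype.card_bool,
        Fintype.card_fin, nsmul_eq_mul]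
      push_cast
      ring
    have h5 : ∑ x, -(2 ^ n * z {zw n}) * z {x} = -(2 ^ n * z {zw n}) * (2 ^ n * z {zw n}) := by
      rw [← Finset.mul_sum, hN]
    have h6 : ∑ u, xs z u (zw n) = (∑ v, z ({zw n} ∪ {v})) / z {zw n} := by
      rw [Finset.sum_div]
      refine Finset.sum_congr rfl fun u _ => ?_
      unfold xs
      rw [Finset.union_comm {u} {zw n}, ← Finset.union_assoc, Finset.union_self]
    rw [h6, hN, le_div_iff₀ h0]
    have h2n : (0 : ℝ) < 2 ^ n := by positivity
    rw [Finset.sum_add_distrib, h4, h5] at h1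
    have h7 : 2 ^ n * ((2 ^ n * z {zw n}) * z {zw n}) ≤ 2 ^ n * ∑ v, z ({zw n} ∪ {v}) := by
      nlinarith [h1]
    exact le_of_mul_le_mul_left h7 h2n

/-- Schrijver's program is at least as strong as Delsarte's -/
theorem SP.le_lp (hc : S7_chr) {x : (Fin n → Bool) → (Fin n → Bool) → ℝ} (h : SP n d x)
    {l : ℕ → ℝ} (hl : Feas n d l) : ∑ u, x u (zw n) ≤ Vl n l / l 0 := by
  rw [le_div_iff₀ hl.2.1]
  obtain ⟨Y, hY⟩ : ∃ Y : (Fin n → Bool) → (Fin n → Bool) → ℝ,
    Y = fun u v => x (add u v) (zw n) := ⟨_, rfl⟩
  have hpsd : ∀ a : (Fin n → Bool) → ℝ, 0 ≤ ∑ u, ∑ v, a u * a v * Y u v := by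
    intro a
    have h1 := add_nonneg (h.psd1 a) (h.psd2 a)
    refine h1.trans (le_of_eq ?_)
    rw [← Finset.sum_add_distrib, hY]
    refine Finset.sum_congr rfl fun u _ => ?_
    rw [← Finset.sum_add_distrib]
    refine Finset.sum_congr rfl fun v _ => ?_
    ring
  have hY0 : ∀ u v, 0 ≤ Y u v := by
    intro u v
    rw [hY]
    exact h.nonneg _ _
  have hYd : ∀ u v, u ≠ v → hammingDist u v < d → Y u v = 0 := by
    intro u v huv hlt
    rw [hY]
    refine h.dist _ _ (fun he => huv ?_) (by rwa [dist_add])
    have := add_add u v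
    rw [he, zw_add] at this
    exact this
  have hYx : ∀ u, Y u u = 1 := by
    intro u
    rw [hY]
    change x (add u u) (zw n) = 1
    rw [add_self, h.one]
  have hsum : ∑ u, ∑ v, Y u v = 2 ^ n * ∑ u, x u (zw n) := by
    have h1 : ∀ u, ∑ v, Y u v = ∑ v, x v (zw n) := by
      intro u
      have h2 : ∀ v, Y u v = x (tr' u v) (zw n) := by
        intro v
        rw [hY, tr_eq, add_comm']
      simp_rw [h2]
      exact Equiv.sum_comp (tr' u) fun v => x v (zw n)
    simp_rw [h1]
    rw [Finset.sum_const, Finset.card_univ, Fintype.card_fun, Fintype.card_bool,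
      Fintype.card_fin, nsmul_eq_mul]
    push_cast
    ring
  -- the characters
  have hch : ∀ j, 0 ≤ ∑ x, ∑ z, (kr n j (hammingDist x z) : ℝ) * Y x z := by
    intro j
    have e1 : ∑ x, ∑ z, (kr n j (hammingDist x z) : ℝ) * Y x z =
        ∑ s ∈ Finset.powersetCard j (Finset.univ : Finset (Fin n)),
          ∑ x, ∑ z, PK9f.chi s x * PK9f.chi s z * Y x z := by
      rw [Finset.sum_comm (s := Finset.powersetCard j (Finset.univ : Finset (Fin n)))]
      refine Finset.sum_congr rfl fun x _ => ?_
      rw [Finset.sum_comm (s := Finset.powersetCard j (Finset.univ : Finset (Fin n)))]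
      refine Finset.sum_congr rfl fun z _ => ?_
      rw [PK9f.kr_sum hc, Finset.sum_mul]
    rw [e1]
    exact Finset.sum_nonneg fun s _ => hpsd (PK9f.chi s)
  have hk0 : ∀ w, (kr n 0 w : ℝ) = 1 := by
    intro w
    simp [kr]
  have h3 : l 0 * ∑ x, ∑ z, Y x z ≤
      ∑ j ∈ Finset.range (n + 1), l j * ∑ x, ∑ z, (kr n j (hammingDist x z) : ℝ) * Y x z := by
    rw [Finset.sum_range_succ']
    simp only [hk0, one_mul]
    have h4 : 0 ≤ ∑ j ∈ Finset.range n, l (j + 1) *
        ∑ x, ∑ z, (kr n (j + 1) (hammingDist x z) : ℝ) * Y x z :=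
      Finset.sum_nonneg fun j _ => mul_nonneg (hl.1 _) (hch _)
    linarith
  have h5 : ∑ j ∈ Finset.range (n + 1), l j * ∑ x, ∑ z, (kr n j (hammingDist x z) : ℝ) * Y x z =
      ∑ x, ∑ z, (∑ j ∈ Finset.range (n + 1), l j * (kr n j (hammingDist x z) : ℝ)) * Y x z := by
    simp_rw [Finset.mul_sum, Finset.sum_mul]
    rw [Finset.sum_comm]
    refine Finset.sum_congr rfl fun x _ => ?_
    rw [Finset.sum_comm]
    refine Finset.sum_congr rfl fun z _ => Finset.sum_congr rfl fun j _ => ?_
    ring
  have h6 : ∑ x, ∑ z, (∑ j ∈ Finset.range (n + 1), l j * (kr n j (hammingDist x z) : ℝ)) * Y x z ≤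
      2 ^ n * Vl n l := by
    have e0 : (2 : ℝ) ^ n * Vl n l = ∑ _x : Fin n → Bool, Vl n l := by
      rw [Finset.sum_const, Finset.card_univ, Fintype.card_fun, Fintype.card_bool,
        Fintype.card_fin, nsmul_eq_mul]
      push_cast
      ring
    rw [e0]
    refine Finset.sum_le_sum fun x _ => ?_
    rw [← Finset.add_sum_erase _ _ (Finset.mem_univ x)]
    have h7 : ∑ j ∈ Finset.range (n + 1), l j * (kr n j (hammingDist x x) : ℝ) = Vl n l := by
      rw [FINf.Vl_eq, hammingDist_self]
    rw [h7, hYx]
    have h8 : ∑ z ∈ Finset.univ.erase x,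
        (∑ j ∈ Finset.range (n + 1), l j * (kr n j (hammingDist x z) : ℝ)) * Y x z ≤ 0 := by
      refine Finset.sum_nonpos fun z hz => ?_
      rw [Finset.mem_erase] at hz
      by_cases hd : hammingDist x z < d
      · rw [hYd x z hz.1.symm hd, mul_zero]
      · exact mul_nonpos_of_nonpos_of_nonneg
          (hl.2.2 _ (by omega) (PK9f.hd_le x z)) (hY0 x z)
    linarith
  rw [h5, hsum] at h3
  have h9 : 2 ^ n * ((∑ u, x u (zw n)) * l 0) ≤ 2 ^ n * Vl n l := by
    refine le_trans (le_of_eq ?_) (h3.trans h6)
    ring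
  exact le_of_mul_le_mul_left h9 (by positivity)

end Pool.Agent.Helper15K9.Sch
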