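import Pool.Agent.Y570.KP.Complete

/-!
Helper15K9 (MP_0430e4_lc): multiplication by `r ^ w` does not increase the norm of the transform.
-/

set_option autoImplicit false
set_option linter.unusedSectionVars false

namespace Pool.Agent.Helper15K9.Tw

open Finset Pool.Agent.TH41.BL Pool.Agent.Y570.KP

variable {n : ℕ}

/-- the sign of a pair of sets -/
noncomputable def sg (T s : Finset (Fin n)) : ℝ := (-1) ^ (T ∩ s).card

lemma sg_prod (T s : Finset (Fin n)) : sg T s = ∏ i ∈ T, (if i ∈ s then (-1 : ℝ) else 1) := by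
  unfold sg
  rw [Finset.prod_ite, Finset.prod_const_one, mul_one, Finset.prod_const, Finset.filter_mem_eq_inter]

lemma sg_comm (T s : Finset (Fin n)) : sg T s = sg s T := by
  unfold sg
  rw [Finset.inter_comm]

lemma sg_mul (T s U : Finset (Fin n)) : sg T s * sg T U = sg T (symmDiff s U) := by
  rw [sg_prod, sg_prod, sg_prod, ← Finset.prod_mul_distrib]
  refine Finset.prod_congr rfl fun i _ => ?_
  by_cases h1 : i ∈ s <;> by_cases h2 : i ∈ U <;> simp [h1, h2, Finset.mem_symmDiff]

/-- the transform of a function of the cardinality -/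
noncomputable def FF (n : ℕ) (f : ℕ → ℝ) (s : Finset (Fin n)) : ℝ :=
  ∑ T : Finset (Fin n), f T.card * sg T s

lemma sum_card {M : Type} [AddCommMonoid M] (g : Finset (Fin n) → M) :
    ∑ T : Finset (Fin n), g T = ∑ w ∈ Finset.range (n + 1),
      ∑ T ∈ Finset.powersetCard w (Finset.univ : Finset (Fin n)), g T := by
  have h := Finset.sum_powerset (s := (Finset.univ : Finset (Fin n))) (f := g)
  rw [Finset.powerset_univ, Finset.card_univ, Fintype.card_fin] at h
  exact h

lemma FF_eq (hc : S7_chr) (f : ℕ → ℝ) (s : Finset (Fin n)) :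
    FF n f s = √2 ^ n * tr n f s.card := by
  unfold FF tr
  have hs2 : (√2 : ℝ) ^ n ≠ 0 := by positivity
  rw [← mul_assoc, mul_inv_cancel₀ hs2, one_mul, sum_card]
  refine Finset.sum_congr rfl fun w _ => ?_
  have h1 := hc (Fin n) s w
  rw [Fintype.card_fin] at h1
  rw [← h1]
  push_cast
  rw [Finset.mul_sum]
  refine Finset.sum_congr rfl fun T hT => ?_
  rw [(Finset.mem_powersetCard.1 hT).2]
  rfl

lemma NN_eq (hc : S7_chr) (f : ℕ → ℝ) : √2 ^ n * NN n f = ∑ s : Finset (Fin n), |FF n f s| := by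
  have h1 : ∀ s : Finset (Fin n), |FF n f s| = √2 ^ n * |tr n f s.card| := by
    intro s
    rw [FF_eq hc, abs_mul, abs_of_nonneg (by positivity)]
  simp_rw [h1]
  rw [sum_card]
  unfold NN
  rw [Finset.mul_sum]
  refine Finset.sum_congr rfl fun j _ => ?_
  have h2 : ∀ s ∈ Finset.powersetCard j (Finset.univ : Finset (Fin n)),
      √2 ^ n * |tr n f s.card| = √2 ^ n * |tr n f j| := by
    intro s hs
    rw [(Finset.mem_powersetCard.1 hs).2]
  rw [Finset.sum_congr rfl h2, Finset.sum_const, Finset.card_powersetCard, Finset.card_univ,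
    Fintype.card_fin, nsmul_eq_mul]
  ring

/-- the weights of the noise -/
noncomputable def cq (q : ℝ) (U : Finset (Fin n)) : ℝ := q ^ U.card * (1 - q) ^ Uᶜ.card

lemma cq_sum (q : ℝ) (T : Finset (Fin n)) :
    ∑ U : Finset (Fin n), cq q U * sg T U = (1 - 2 * q) ^ T.card := by
  have h1 := Finset.prod_add (fun i : Fin n => q * (if i ∈ T then (-1 : ℝ) else 1))
    (fun _ => 1 - q) (Finset.univ : Finset (Fin n))
  rw [Finset.powerset_univ] at h1
  have h2 : ∏ i : Fin n, (q * (if i ∈ T then (-1 : ℝ) else 1) + (1 - q)) =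
      (1 - 2 * q) ^ T.card := by
    have h3 : ∀ i : Fin n, (q * (if i ∈ T then (-1 : ℝ) else 1) + (1 - q)) =
        if i ∈ T then (1 - 2 * q) else 1 := by
      intro i
      split_ifs <;> ring
    simp_rw [h3]
    rw [Finset.prod_ite, Finset.prod_const_one, mul_one, Finset.prod_const]
    congr 2
    ext i
    simp
  rw [← h2, h1]
  refine Finset.sum_congr rfl fun U _ => ?_
  rw [Finset.prod_mul_distrib, Finset.prod_const, Finset.prod_const, sg_comm, sg_prod]
  unfold cq
  have h4 : (Finset.univ : Finset (Fin n)) \ U = Uᶜ := by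
    ext i
    simp
  rw [h4]
  ring

lemma cq_one (q : ℝ) : ∑ U : Finset (Fin n), cq q U = 1 := by
  have h1 := cq_sum q (∅ : Finset (Fin n))
  simp only [Finset.card_empty, pow_zero] at h1
  rw [← h1]
  refine Finset.sum_congr rfl fun U _ => ?_
  unfold sg
  simp

/-- the twist -/
theorem NN_twist (hc : S7_chr) {r : ℝ} (h0 : 0 ≤ r) (h1 : r ≤ 1) (f : ℕ → ℝ) :
    NN n (fun w => r ^ w * f w) ≤ NN n f := by
  have hs2 : (0 : ℝ) < √2 ^ n := by positivity
  refine le_of_mul_le_mul_left ?_ hs2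
  rw [NN_eq hc, NN_eq hc]
  obtain ⟨q, hq⟩ : ∃ q : ℝ, q = (1 - r) / 2 := ⟨_, rfl⟩
  have hq0 : 0 ≤ q := by rw [hq]; linarith
  have hq1 : 0 ≤ 1 - q := by rw [hq]; linarith
  have hr : 1 - 2 * q = r := by rw [hq]; ring
  have hcq : ∀ U : Finset (Fin n), 0 ≤ cq q U := fun U =>
    mul_nonneg (pow_nonneg hq0 _) (pow_nonneg hq1 _)
  have h2 : ∀ s : Finset (Fin n), FF n (fun w => r ^ w * f w) s =
      ∑ U : Finset (Fin n), cq q U * FF n f (symmDiff s U) := by
    intro s
    unfold FF
    simp_rw [Finset.mul_sum]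
    rw [Finset.sum_comm]
    refine Finset.sum_congr rfl fun T _ => ?_
    rw [← hr, ← cq_sum q T, Finset.sum_mul, Finset.sum_mul]
    refine Finset.sum_congr rfl fun U _ => ?_
    rw [← sg_mul]
    ring
  have h3 : ∀ U : Finset (Fin n), ∑ s : Finset (Fin n), |FF n f (symmDiff s U)| =
      ∑ s : Finset (Fin n), |FF n f s| := by
    intro U
    refine Fintype.sum_bijective (fun s => symmDiff s U) ?_ _ _ fun s => rfl
    refine Function.Involutive.bijective fun s => ?_
    exact symmDiff_symmDiff_cancel_right U s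
  calc ∑ s : Finset (Fin n), |FF n (fun w => r ^ w * f w) s|
      ≤ ∑ s : Finset (Fin n), ∑ U : Finset (Fin n), cq q U * |FF n f (symmDiff s U)| := by
        refine Finset.sum_le_sum fun s _ => ?_
        rw [h2]
        refine (Finset.abs_sum_le_sum_abs _ _).trans (le_of_eq ?_)
        refine Finset.sum_congr rfl fun U _ => ?_
        rw [abs_mul, abs_of_nonneg (hcq U)]
    _ = ∑ U : Finset (Fin n), cq q U * ∑ s : Finset (Fin n), |FF n f s| := by
        rw [Finset.sum_comm]
        refine Finset.sum_congr rfl fun U _ => ?_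
        rw [← Finset.mul_sum, h3]
    _ = ∑ s : Finset (Fin n), |FF n f s| := by
        rw [← Finset.sum_mul, cq_one, one_mul]

/-- the two-sided inequality from the inequality for the small weights -/
theorem star_of_near (hc : S7_chr) (hk : S_kra) (n d : ℕ) (p : ℕ → Prop) [DecidablePred p]
    (r E M κ : ℝ) (hr0 : 0 < r) (hr1 : r ≤ 1) (hE : 0 ≤ E) (hM : 0 ≤ M) (hκ0 : 0 ≤ κ) (hκ1 : κ ≤ 1)
    (hp : ∀ w, w < d → p w)
    (hκ : ∀ w ∈ Finset.range (n + 1), ¬ p w → E * r ^ w ≤ κ * r ^ d)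
    (hnear : ∀ f : ℕ → ℝ, ∑ w ∈ (Finset.range (n + 1)).filter p, (n.choose w : ℝ) * |f w| ≤
      E * ∑ w ∈ (Finset.range (n + 1)).filter (fun w => ¬ p w), (n.choose w : ℝ) * |f w| +
        M * NN n f) :
    StarAt n d (1 + κ) ((r ^ d)⁻¹ * M * √2 ^ n) := by
  intro l
  obtain ⟨f, hf⟩ : ∃ f : ℕ → ℝ, f = fun w => ∑ i ∈ Finset.range (n + 1), l i * (kr n i w : ℝ) :=
    ⟨_, rfl⟩
  obtain ⟨-, hk2, hk3, -, -⟩ := hk
  have htr : ∀ j, j ≤ n → tr n f j = √2 ^ n * l j := by
    intro j hj
    rw [hf]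
    exact hk2 n l j hj
  have hs2 : (0 : ℝ) < √2 ^ n := by positivity
  have hs22 : (√2 : ℝ) ^ n * √2 ^ n = 2 ^ n := by
    rw [← mul_pow, Real.mul_self_sqrt (by norm_num)]
  have hsum : ∑ w ∈ Finset.range (n + 1), (n.choose w : ℝ) * f w = 2 ^ n * l 0 := by
    have e1 := htr 0 (Nat.zero_le n)
    unfold tr at e1
    have e2 : ∑ w ∈ Finset.range (n + 1), f w * (kr n w 0 : ℝ) = √2 ^ n * (√2 ^ n * l 0) := by
      rw [← e1, ← mul_assoc, mul_inv_cancel₀ hs2.ne', one_mul]
    rw [← mul_assoc, hs22] at e2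
    rw [← e2]
    refine Finset.sum_congr rfl fun w _ => ?_
    rw [hk3]
    push_cast
    ring
  have hNN : NN n f = √2 ^ n * ∑ j ∈ Finset.range (n + 1), (n.choose j : ℝ) * |l j| := by
    unfold NN
    rw [Finset.mul_sum]
    refine Finset.sum_congr rfl fun j hj => ?_
    have hj' : j ≤ n := by
      have := Finset.mem_range.1 hj
      omega
    rw [htr j hj', abs_mul, abs_of_pos hs2]
    ring
  have hrd : 0 < r ^ d := pow_pos hr0 d
  -- the small weights
  have hsmall : ∑ w ∈ (Finset.range (n + 1)).filter (fun w => w < d), (n.choose w : ℝ) * |f w| ≤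
      κ * ∑ w ∈ (Finset.range (n + 1)).filter (fun w => d ≤ w), (n.choose w : ℝ) * |f w| +
        (r ^ d)⁻¹ * M * NN n f := by
    have h1 := hnear fun w => r ^ w * f w
    have h2 : r ^ d * ∑ w ∈ (Finset.range (n + 1)).filter (fun w => w < d),
        (n.choose w : ℝ) * |f w| ≤
        ∑ w ∈ (Finset.range (n + 1)).filter p, (n.choose w : ℝ) * |r ^ w * f w| := by
      rw [Finset.mul_sum]
      refine (Finset.sum_le_sum ?_).trans (Finset.sum_le_sum_of_subset_of_nonneg (t :=
        (Finset.range (n + 1)).filter p) (f := fun w => (n.choose w : ℝ) * |r ^ w * f w|) ?_ ?_)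
      · intro w hw
        rw [Finset.mem_filter] at hw
        rw [abs_mul, abs_of_nonneg (pow_nonneg hr0.le w)]
        have h3 : r ^ d ≤ r ^ w := pow_le_pow_of_le_one hr0.le hr1 hw.2.le
        calc r ^ d * ((n.choose w : ℝ) * |f w|) ≤ r ^ w * ((n.choose w : ℝ) * |f w|) :=
              mul_le_mul_of_nonneg_right h3 (by positivity)
          _ = (n.choose w : ℝ) * (r ^ w * |f w|) := by ring
      · intro w hw
        rw [Finset.mem_filter] at hw ⊢
        exact ⟨hw.1, hp w hw.2⟩
      · intro w _ _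
        positivity
    have h3 : E * ∑ w ∈ (Finset.range (n + 1)).filter (fun w => ¬ p w),
        (n.choose w : ℝ) * |r ^ w * f w| ≤
        κ * r ^ d * ∑ w ∈ (Finset.range (n + 1)).filter (fun w => d ≤ w),
          (n.choose w : ℝ) * |f w| := by
      rw [Finset.mul_sum, Finset.mul_sum]
      refine (Finset.sum_le_sum (g := fun w => κ * r ^ d * ((n.choose w : ℝ) * |f w|)) ?_).trans
        (Finset.sum_le_sum_of_subset_of_nonneg ?_ ?_)
      · intro w hw
        rw [Finset.mem_filter] at hw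
        rw [abs_mul, abs_of_nonneg (pow_nonneg hr0.le w)]
        calc E * ((n.choose w : ℝ) * (r ^ w * |f w|)) = E * r ^ w * ((n.choose w : ℝ) * |f w|) := by
              ring
          _ ≤ κ * r ^ d * ((n.choose w : ℝ) * |f w|) :=
              mul_le_mul_of_nonneg_right (hκ w hw.1 hw.2) (by positivity)
      · intro w hw
        rw [Finset.mem_filter] at hw ⊢
        refine ⟨hw.1, ?_⟩
        by_contra hcon
        exact hw.2 (hp w (by omega))
      · intro w _ _
        positivity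
    have h4 : M * NN n (fun w => r ^ w * f w) ≤ M * NN n f :=
      mul_le_mul_of_nonneg_left (NN_twist hc hr0.le hr1 f) hM
    have h5 : r ^ d * ∑ w ∈ (Finset.range (n + 1)).filter (fun w => w < d),
        (n.choose w : ℝ) * |f w| ≤
        r ^ d * (κ * ∑ w ∈ (Finset.range (n + 1)).filter (fun w => d ≤ w),
          (n.choose w : ℝ) * |f w| + (r ^ d)⁻¹ * M * NN n f) := by
      refine h2.trans (h1.trans ((add_le_add h3 h4).trans (le_of_eq ?_)))
      rw [mul_add, mul_assoc (r ^ d)⁻¹, mul_inv_cancel_left₀ hrd.ne']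
      ring
    exact le_of_mul_le_mul_left h5 hrd
  have hsplit : ∑ w ∈ Finset.range (n + 1), (n.choose w : ℝ) * f w =
      ∑ w ∈ (Finset.range (n + 1)).filter (fun w => w < d), (n.choose w : ℝ) * f w +
      ∑ w ∈ (Finset.range (n + 1)).filter (fun w => d ≤ w), (n.choose w : ℝ) * f w := by
    rw [← Finset.sum_filter_add_sum_filter_not _ (fun w => w < d)]
    congr 1
    refine Finset.sum_congr ?_ fun _ _ => rfl
    ext w
    simp only [Finset.mem_filter, not_lt]
  have h6 : ∑ w ∈ (Finset.range (n + 1)).filter (fun w => w < d), (n.choose w : ℝ) * f w ≤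
      ∑ w ∈ (Finset.range (n + 1)).filter (fun w => w < d), (n.choose w : ℝ) * |f w| :=
    Finset.sum_le_sum fun w _ => mul_le_mul_of_nonneg_left (le_abs_self _) (Nat.cast_nonneg _)
  have h7 : κ * ∑ w ∈ (Finset.range (n + 1)).filter (fun w => d ≤ w), (n.choose w : ℝ) * |f w| +
      ∑ w ∈ (Finset.range (n + 1)).filter (fun w => d ≤ w), (n.choose w : ℝ) * f w ≤
      (1 + κ) * ∑ w ∈ (Finset.range (n + 1)).filter (fun w => d ≤ w),
        (n.choose w : ℝ) * max (f w) 0 := by
    rw [Finset.mul_sum, Finset.mul_sum, ← Finset.sum_add_distrib]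
    refine Finset.sum_le_sum fun w _ => ?_
    have hC : (0 : ℝ) ≤ (n.choose w : ℝ) := Nat.cast_nonneg _
    rcases le_total (f w) 0 with hfw | hfw
    · rw [abs_of_nonpos hfw, max_eq_right hfw]
      nlinarith [mul_nonneg hC (mul_nonneg (sub_nonneg.2 hκ1) (neg_nonneg.2 hfw))]
    · rw [abs_of_nonneg hfw, max_eq_left hfw]
      linarith
  have h8 : (r ^ d)⁻¹ * M * NN n f = (r ^ d)⁻¹ * M * √2 ^ n *
      ∑ j ∈ Finset.range (n + 1), (n.choose j : ℝ) * |l j| := by
    rw [hNN]
    ring
  have h9 : ∑ w ∈ (Finset.range (n + 1)).filter (fun w => d ≤ w),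
      (n.choose w : ℝ) * max (∑ i ∈ Finset.range (n + 1), l i * (kr n i w : ℝ)) 0 =
      ∑ w ∈ (Finset.range (n + 1)).filter (fun w => d ≤ w), (n.choose w : ℝ) * max (f w) 0 := by
    rw [hf]
  rw [h9, ← h8, ← hsum, hsplit]
  linarith

end Pool.Agent.Helper15K9.Tw
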